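import Mathlib

/-!
Purity of the branch locus over `O_v[x]`: definitions.
-/

set_option autoImplicit false

open scoped WithZero

namespace Pf72953.Pur

/-- `w` is `≤ 1` on `A` and its centre on `A` is the prime ideal `(q)` -/
structure OverPrime {A L : Type*} [CommRing A] [Field L] [Algebra A L] (w : Valuation L ℤᵐ⁰)
    (q : A) : Prop where
  le_one : ∀ f : A, w (algebraMap A L f) ≤ 1
  lt_one : ∀ f : A, w (algebraMap A L f) < 1 ↔ q ∣ f

end Pf72953.Pur
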