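import Mathlib
import Pool.Agent.Lib.Pf72953y.Defs
import Pool.Agent.Lib.Pf72953.Unram

/-!
Purity of the branch locus over `O_v[x]`: the filtration of the integral closure.
-/

set_option autoImplicit false
set_option linter.style.haveILetI false

open scoped WithZero
open Pf72953

namespace Pf72953.Pur

section basic

variable {A L : Type*} [CommRing A] [IsDomain A] [Field L] [Algebra A L]

theorem algebraMap_inj (A K L : Type*) [CommRing A] [IsDomain A] [Field K] [Algebra A K]
    [IsFractionRing A K] [Field L] [Algebra K L] [Algebra A L] [IsScalarTower A K L] :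
    Function.Injective (algebraMap A L) := by
  rw [IsScalarTower.algebraMap_eq A K L]
  exact (algebraMap K L).injective.comp (IsFractionRing.injective A K)

/-- a valuation `≤ 1` on `A` is `≤ 1` on the integral elements -/
theorem le_one_of_isIntegral {w : Valuation L ℤᵐ⁰} (hw : ∀ f : A, w (algebraMap A L f) ≤ 1) {b : L}
    (hb : IsIntegral A b) : w b ≤ 1 := by
  obtain ⟨P, hP, hPb⟩ := hb
  by_contra hlt
  rw [not_le] at hlt
  have hb0 : w b ≠ 0 := (zero_lt_one.trans hlt).ne'
  have h1 : w (P.eval₂ (algebraMap A L) b) = w b ^ P.natDegree := by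
    rw [Polynomial.eval₂_eq_sum_range, Finset.sum_range_succ, Polynomial.coeff_natDegree,
      hP.leadingCoeff, map_one, one_mul, Valuation.map_add_eq_of_lt_right, map_pow]
    rw [map_pow]
    refine Valuation.map_sum_lt _ (pow_ne_zero _ hb0) fun i hi => ?_
    rw [Finset.mem_range] at hi
    rw [map_mul, map_pow]
    calc _ ≤ 1 * w b ^ i := mul_le_mul' (hw _) le_rfl
      _ = w b ^ i := one_mul _
      _ < w b ^ P.natDegree := pow_lt_pow_right₀ hlt hi
  rw [hPb, map_zero] at h1
  exact pow_ne_zero _ hb0 h1.symm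

variable [UniqueFactorizationMonoid A]

/-- the value of an element of `A` -/
theorem exists_val {q : A} (hq : Prime q) {w : Valuation L ℤᵐ⁰} (hw : OverPrime w q) {f : A}
    (hf : f ≠ 0) : ∃ (n : ℕ) (g : A), ¬ q ∣ g ∧ f = q ^ n * g ∧
      w (algebraMap A L f) = w (algebraMap A L q) ^ n := by
  obtain ⟨n, g, hg, rfl⟩ := WfDvdMonoid.max_power_factor hf hq.irreducible
  refine ⟨n, g, hg, rfl, ?_⟩
  rw [map_mul, map_pow, map_mul, map_pow]
  have h1 : w (algebraMap A L g) = 1 := by
    refine le_antisymm (hw.le_one g) ?_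
    by_contra h
    exact hg ((hw.lt_one g).1 (not_le.1 h))
  rw [h1, mul_one]

omit [UniqueFactorizationMonoid A] in
theorem val_q_ne_zero (hinj : Function.Injective (algebraMap A L)) {q : A} (hq : Prime q)
    (w : Valuation L ℤᵐ⁰) : w (algebraMap A L q) ≠ 0 := by
  rw [Valuation.ne_zero_iff]
  intro h
  exact hq.ne_zero (hinj (by rw [h, map_zero]))

/-- divisibility by powers of `q` -/
theorem pow_dvd_iff (hinj : Function.Injective (algebraMap A L)) {q : A} (hq : Prime q) {w : Valuation L ℤᵐ⁰} (hw : OverPrime w q) {f : A} {n : ℕ} :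
    q ^ n ∣ f ↔ w (algebraMap A L f) ≤ w (algebraMap A L q) ^ n := by
  constructor
  · rintro ⟨g, rfl⟩
    rw [map_mul, map_pow, map_mul, map_pow]
    exact mul_le_of_le_one_right' (hw.le_one g)
  · intro h
    rcases eq_or_ne f 0 with rfl | hf
    · exact dvd_zero _
    obtain ⟨m, g, hg, rfl, hm⟩ := exists_val hq hw hf
    rw [hm] at h
    have hlt : w (algebraMap A L q) < 1 := (hw.lt_one q).2 dvd_rfl
    have h0 : 0 < w (algebraMap A L q) := zero_lt_iff.2 (val_q_ne_zero hinj hq w)
    have hnm : n ≤ m := by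
      by_contra hc
      rw [not_le] at hc
      exact absurd h (not_le.2 (pow_lt_pow_right_of_lt_one₀ h0 hlt hc))
    exact Dvd.dvd.mul_right (pow_dvd_pow q hnm) g

end basic

section integral

variable {A K L : Type*} [CommRing A] [IsDomain A] [UniqueFactorizationMonoid A]
  [Field K] [Algebra A K] [IsFractionRing A K]
  [Field L] [Algebra K L] [Algebra A L] [IsScalarTower A K L] [FiniteDimensional K L] [IsGalois K L]

/-- division by `q` in the integral closure -/
theorem isIntegral_of_mul {q : A} (hq : Prime q) {w : Valuation L ℤᵐ⁰} (hw : OverPrime w q) {b : L}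
    (hb : IsIntegral A (algebraMap A L q * b)) (h : ∀ σ : L ≃ₐ[K] L, w (σ b) ≤ 1) :
    IsIntegral A b := by
  classical
  set F : Polynomial L := ∏ σ : L ≃ₐ[K] L, (Polynomial.X - Polynomial.C (σ b)) with hF
  have hmonic : F.Monic := Polynomial.monic_prod_of_monic _ _ fun _ _ => Polynomial.monic_X_sub_C _
  have hroot : F.eval b = 0 := by
    rw [hF, Polynomial.eval_prod]
    refine Finset.prod_eq_zero (Finset.mem_univ (1 : L ≃ₐ[K] L)) ?_
    simp
  set N := Fintype.card (L ≃ₐ[K] L) with hN
  set qL := algebraMap A L q with hqL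
  -- the scaled polynomial
  have hsc : Polynomial.C (qL ^ N) * F =
      ∏ σ : L ≃ₐ[K] L, (Polynomial.C qL * Polynomial.X - Polynomial.C (σ (qL * b))) := by
    have h1 : Polynomial.C (qL ^ N) = ∏ _σ : L ≃ₐ[K] L, Polynomial.C qL := by
      rw [Finset.prod_const, Finset.card_univ, ← hN, map_pow]
    rw [h1, hF, ← Finset.prod_mul_distrib]
    refine Finset.prod_congr rfl fun σ _ => ?_
    have h2 : σ qL = qL := by
      rw [hqL, IsScalarTower.algebraMap_apply A K L, AlgEquiv.commutes]
    rw [mul_sub, ← Polynomial.C_mul, map_mul σ, h2]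
  have hint : ∀ n, IsIntegral A (qL ^ N * F.coeff n) := by
    have h1 : ∀ n, (∏ σ : L ≃ₐ[K] L, (Polynomial.C qL * Polynomial.X -
        Polynomial.C (σ (qL * b)))).coeff n ∈ integralClosure A L := by
      have h2 : ∏ σ : L ≃ₐ[K] L, (Polynomial.C qL * Polynomial.X -
          Polynomial.C (σ (qL * b))) ∈ Polynomial.lifts (integralClosure A L).val.toRingHom := by
        refine Subsemiring.prod_mem _ fun σ _ => ?_
        have hσ : IsIntegral A (σ (qL * b)) := by
          have := hb.map (σ.restrictScalars A)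
          exact this
        refine (Polynomial.mem_lifts _).2 ⟨Polynomial.C (⟨qL, isIntegral_algebraMap⟩ :
          integralClosure A L) * Polynomial.X - Polynomial.C ⟨σ (qL * b), hσ⟩, ?_⟩
        simp
      intro n
      obtain ⟨P, hP⟩ := (Polynomial.mem_lifts _).1 h2
      rw [← hP, Polynomial.coeff_map]
      exact (P.coeff n).2
    intro n
    have h3 := h1 n
    rw [← hsc, Polynomial.coeff_C_mul] at h3
    exact h3
  -- the coefficients are `≤ 1`
  have hle : ∀ n, w (F.coeff n) ≤ 1 := by
    have h2 : F ∈ Polynomial.lifts w.valuationSubring.subtype := by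
      rw [hF]
      refine Subsemiring.prod_mem _ fun σ _ => ?_
      refine (Polynomial.mem_lifts _).2 ⟨Polynomial.X - Polynomial.C ⟨σ b, h σ⟩, ?_⟩
      simp
    intro n
    obtain ⟨P, hP⟩ := (Polynomial.mem_lifts _).1 h2
    rw [← hP, Polynomial.coeff_map]
    exact (P.coeff n).2
  -- and invariant
  have hinv : ∀ n, ∃ c : K, algebraMap K L c = F.coeff n := by
    intro n
    have h1 : ∀ τ : L ≃ₐ[K] L, τ (F.coeff n) = F.coeff n := by
      intro τ
      have h2 : F.map (τ : L →+* L) = F := by
        rw [hF, Polynomial.map_prod]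
        rw [← Equiv.prod_comp (Equiv.mulLeft τ) (fun σ => Polynomial.X - Polynomial.C (σ b))]
        refine Finset.prod_congr rfl fun σ _ => ?_
        simp
      conv_rhs => rw [← h2]
      rw [Polynomial.coeff_map]
      rfl
    exact (IsGalois.mem_range_algebraMap_iff_fixed (F := K) (E := L) _).2 h1
  have hA : ∀ n, ∃ a : A, algebraMap A L a = F.coeff n := by
    intro n
    obtain ⟨c, hc⟩ := hinv n
    have h1 : IsIntegral A (algebraMap A K (q ^ N) * c) := by
      have h2 : algebraMap K L (algebraMap A K (q ^ N) * c) = qL ^ N * F.coeff n := by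
        rw [map_mul, hc, ← IsScalarTower.algebraMap_apply A K L, map_pow]
      have h3 := hint n
      rw [← h2] at h3
      exact (isIntegral_algebraMap_iff (algebraMap K L).injective).1 h3
    obtain ⟨a, ha⟩ := IsIntegrallyClosed.isIntegral_iff.1 h1
    have h4 : algebraMap A L a = qL ^ N * F.coeff n := by
      rw [IsScalarTower.algebraMap_apply A K L, ha, map_mul, hc,
        ← IsScalarTower.algebraMap_apply A K L, map_pow]
    have h5 : q ^ N ∣ a := by
      rw [pow_dvd_iff (algebraMap_inj A K L) hq hw, h4, map_mul, map_pow]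
      exact mul_le_of_le_one_right' (hle n)
    obtain ⟨a', rfl⟩ := h5
    refine ⟨a', ?_⟩
    have h6 : qL ^ N ≠ 0 := pow_ne_zero _ fun h => hq.ne_zero
      (algebraMap_inj A K L (by rw [← hqL, h, map_zero]))
    rw [map_mul, map_pow] at h4
    exact mul_left_cancel₀ h6 h4
  have hlift : F ∈ Polynomial.lifts (algebraMap A L) := by
    rw [Polynomial.lifts_iff_coeff_lifts]
    intro n
    obtain ⟨a, ha⟩ := hA n
    exact ⟨a, ha⟩
  obtain ⟨P, hP1, -, hP2⟩ := Polynomial.lifts_and_natDegree_eq_and_monic hlift hmonic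
  refine ⟨P, hP2, ?_⟩
  rw [← Polynomial.eval_map, hP1, hroot]

end integral

end Pf72953.Pur
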