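import Mathlib
import Pool.Agent.Lib.Pf72953y.Defs
import Pool.Agent.Lib.Pf72953.Extend

/-!
# The ring `O_v[x]`
-/

set_option autoImplicit false

open scoped WithZero Polynomial

namespace Pf72953.Pur

/-- P3a -/
theorem dvr_of_nontrivial {P : Type*} [Field P] {v : Valuation P ℤᵐ⁰}
    (hv : ∃ a : P, a ≠ 0 ∧ v a ≠ 1) : IsDiscreteValuationRing v.valuationSubring := by
  haveI := nontrivial_valueGroup v hv
  infer_instance

/-- P3b: `κ[x]` is a principal ideal domain -/
theorem pid_quot {O : Type*} [CommRing O] [IsDomain O] [IsDiscreteValuationRing O] {π : O}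
    (hπ : Irreducible π) :
    IsPrincipalIdealRing (O[X] ⧸ Ideal.span {(Polynomial.C π : O[X])}) := by
  have hmax : IsLocalRing.maximalIdeal O = Ideal.span {π} := hπ.maximalIdeal_eq
  haveI : (Ideal.span {π} : Ideal O).IsMaximal := hmax ▸ IsLocalRing.maximalIdeal.isMaximal O
  letI := Ideal.Quotient.field (Ideal.span {π} : Ideal O)
  have hmap : Ideal.map (Polynomial.C : O →+* O[X]) (Ideal.span {π}) =
      Ideal.span {(Polynomial.C π : O[X])} := by
    rw [Ideal.map_span, Set.image_singleton]
  rw [← hmap]
  exact IsPrincipalIdealRing.of_surjective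
    (Ideal.polynomialQuotientEquivQuotientPolynomial (Ideal.span {π} : Ideal O))
    (RingEquiv.surjective _)

/-- the algebra structure of `K = P(x)` over `O_v[x]` -/
noncomputable abbrev algX {P K : Type*} [Field P] [Field K] [Algebra P K] (v : Valuation P ℤᵐ⁰)
    (x : K) : Algebra (v.valuationSubring)[X] K :=
  ((Polynomial.aeval (R := P) x).toRingHom.comp
    (Polynomial.mapRingHom (algebraMap v.valuationSubring P))).toAlgebra

/-- the algebra structure of `K = P(x)` over `P[x]` -/
noncomputable abbrev algP {P K : Type*} [Field P] [Field K] [Algebra P K] (x : K) :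
    Algebra P[X] K :=
  (Polynomial.aeval (R := P) x).toRingHom.toAlgebra

theorem isFractionRing_algP {P K : Type*} [Field P] [Field K] [Algebra P K]
    {x : K} (hx : Transcendental P x) (hK : ∀ z : K, z ∈ IntermediateField.adjoin P {x}) :
    letI := algP (P := P) x
    IsFractionRing P[X] K := by
  letI := algP (P := P) x
  have hinj : ∀ f : P[X], Polynomial.aeval x f = 0 → f = 0 := transcendental_iff.1 hx
  have halg : ∀ f : P[X], algebraMap P[X] K f = Polynomial.aeval x f := fun _ => rfl
  refine (isLocalization_iff _ _).2 ⟨fun y => ?_, fun z => ?_, fun {f g} h => ?_⟩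
  · rw [isUnit_iff_ne_zero, halg]
    intro h
    exact nonZeroDivisors.ne_zero y.2 (hinj _ h)
  · obtain ⟨r, s, hrs⟩ := (IntermediateField.mem_adjoin_simple_iff P z).1 (hK z)
    by_cases hs : Polynomial.aeval x s = 0
    · refine ⟨(0, 1), ?_⟩
      rw [hrs, hs]
      simp
    · have hs0 : s ≠ 0 := by
        rintro rfl
        exact hs (map_zero _)
      refine ⟨(r, ⟨s, mem_nonZeroDivisors_of_ne_zero hs0⟩), ?_⟩
      rw [halg, halg, hrs, div_mul_cancel₀ _ hs]
  · refine ⟨1, ?_⟩
    rw [halg, halg] at h
    have h1 : f - g = 0 := hinj _ (by rw [map_sub, h, sub_self])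
    rw [sub_eq_zero.1 h1]

/-- P3c: `P(x)` is the fraction field of `O_v[x]` -/
theorem isFractionRing_algX {P K : Type*} [Field P] [Field K] [Algebra P K] (v : Valuation P ℤᵐ⁰)
    {x : K} (hx : Transcendental P x) (hK : ∀ z : K, z ∈ IntermediateField.adjoin P {x}) :
    letI := algX v x
    IsFractionRing (v.valuationSubring)[X] K := by
  letI := algX v x
  have hinj : ∀ f : P[X], Polynomial.aeval x f = 0 → f = 0 := transcendental_iff.1 hx
  have halg : ∀ f : (v.valuationSubring)[X], algebraMap (v.valuationSubring)[X] K f =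
      Polynomial.aeval x (f.map (algebraMap v.valuationSubring P)) := fun _ => rfl
  have hOP : Function.Injective (algebraMap v.valuationSubring P) :=
    IsFractionRing.injective v.valuationSubring P
  have hinj' : ∀ f : (v.valuationSubring)[X],
      Polynomial.aeval x (f.map (algebraMap v.valuationSubring P)) = 0 → f = 0 := by
    intro f hf
    exact (Polynomial.map_eq_zero_iff hOP).1 (hinj _ hf)
  refine (isLocalization_iff _ _).2 ⟨fun y => ?_, fun z => ?_, fun {f g} h => ?_⟩
  · rw [isUnit_iff_ne_zero, halg]
    intro h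
    exact nonZeroDivisors.ne_zero y.2 (hinj' _ h)
  · obtain ⟨r, s, hrs⟩ := (IntermediateField.mem_adjoin_simple_iff P z).1 (hK z)
    by_cases hs : Polynomial.aeval x s = 0
    · refine ⟨(0, 1), ?_⟩
      rw [hrs, hs]
      simp
    · obtain ⟨b1, hb1⟩ := IsLocalization.integerNormalization_map_to_map
        (nonZeroDivisors v.valuationSubring) r
      obtain ⟨b2, hb2⟩ := IsLocalization.integerNormalization_map_to_map
        (nonZeroDivisors v.valuationSubring) s
      set F1 := IsLocalization.integerNormalization (nonZeroDivisors v.valuationSubring) r with hF1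
      set F2 := IsLocalization.integerNormalization (nonZeroDivisors v.valuationSubring) s with hF2
      have e1 : Polynomial.aeval x (F1.map (algebraMap v.valuationSubring P)) =
          algebraMap P K (algebraMap v.valuationSubring P b1) * Polynomial.aeval x r := by
        rw [hb1, Algebra.smul_def, map_mul]
        congr 1
        rw [IsScalarTower.algebraMap_apply v.valuationSubring P P[X], Polynomial.algebraMap_eq,
          Polynomial.aeval_C]
      have e2 : Polynomial.aeval x (F2.map (algebraMap v.valuationSubring P)) =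
          algebraMap P K (algebraMap v.valuationSubring P b2) * Polynomial.aeval x s := by
        rw [hb2, Algebra.smul_def, map_mul]
        congr 1
        rw [IsScalarTower.algebraMap_apply v.valuationSubring P P[X], Polynomial.algebraMap_eq,
          Polynomial.aeval_C]
      have hb2' : algebraMap P K (algebraMap v.valuationSubring P b2) ≠ 0 := by
        intro h
        have h1 := (map_eq_zero_iff _ (algebraMap P K).injective).1 h
        exact nonZeroDivisors.ne_zero b2.2 ((map_eq_zero_iff _ hOP).1 h1)
      have hF2' : F2 ≠ 0 := by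
        intro h
        rw [h, Polynomial.map_zero, map_zero] at e2
        exact mul_ne_zero hb2' hs e2.symm
      have hb1' : (b1 : v.valuationSubring) ≠ 0 := nonZeroDivisors.ne_zero b1.2
      have hne : (Polynomial.C (b1 : v.valuationSubring)) * F2 ≠ 0 :=
        mul_ne_zero (Polynomial.C_ne_zero.2 hb1') hF2'
      refine ⟨(Polynomial.C (b2 : v.valuationSubring) * F1,
        ⟨Polynomial.C (b1 : v.valuationSubring) * F2, mem_nonZeroDivisors_of_ne_zero hne⟩), ?_⟩
      rw [halg, halg]
      simp only [Polynomial.map_mul, Polynomial.map_C, map_mul, Polynomial.aeval_C]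
      rw [e1, e2, hrs]
      field_simp
  · refine ⟨1, ?_⟩
    rw [halg, halg] at h
    have h1 : f - g = 0 := hinj' _ (by rw [Polynomial.map_sub, map_sub, h, sub_self])
    rw [sub_eq_zero.1 h1]

/-- P3d: the valuation over a horizontal prime `q` -/
theorem exists_over_prime {P K L : Type*} [Field P] [Field K] [Field L] [Algebra P K]
    [Algebra K L] [Algebra P L] [IsScalarTower P K L] [FiniteDimensional K L]
    [Algebra.IsSeparable K L]
    (v : Valuation P ℤᵐ⁰) {x : K} (hx : Transcendental P x)
    (hK : ∀ z : K, z ∈ IntermediateField.adjoin P {x}) {π : v.valuationSubring}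
    (hπ : Irreducible π) {q : (v.valuationSubring)[X]} (hq : Prime q)
    (hqπ : ¬ q ∣ Polynomial.C π) :
    ∃ w : Valuation L ℤᵐ⁰, (∀ p : P, p ≠ 0 → w (algebraMap P L p) = 1) ∧
      (∀ f : (v.valuationSubring)[X],
        w (algebraMap K L (Polynomial.aeval x (f.map (algebraMap v.valuationSubring P)))) ≤ 1) ∧
      ∀ f : (v.valuationSubring)[X],
        w (algebraMap K L (Polynomial.aeval x (f.map (algebraMap v.valuationSubring P)))) < 1 ↔
          q ∣ f := by
  classical
  have hπv : v (π : P) ≠ 1 := by
    intro h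
    apply hπ.not_isUnit
    have h0 : (π : P) ≠ 0 := by
      intro h0
      exact hπ.ne_zero (Subtype.ext h0)
    refine ⟨⟨π, ⟨(π : P)⁻¹, ?_⟩, Subtype.ext (mul_inv_cancel₀ h0),
      Subtype.ext (inv_mul_cancel₀ h0)⟩, rfl⟩
    show v (π : P)⁻¹ ≤ 1
    rw [map_inv₀, h, inv_one]
  haveI hdvr : IsDiscreteValuationRing v.valuationSubring :=
    dvr_of_nontrivial ⟨π, fun h0 => hπ.ne_zero (Subtype.ext h0), hπv⟩
  -- `q` is primitive
  have hprim : q.IsPrimitive := by
    intro r hr
    by_contra hru
    have h1 : r ∈ IsLocalRing.maximalIdeal v.valuationSubring :=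
      (IsLocalRing.mem_maximalIdeal r).2 hru
    rw [hπ.maximalIdeal_eq, Ideal.mem_span_singleton] at h1
    have h2 : Polynomial.C π ∣ q := (map_dvd Polynomial.C h1).trans hr
    obtain ⟨g, hg⟩ := h2
    rcases hq.irreducible.isUnit_or_isUnit hg with h3 | h3
    · exact hπ.not_isUnit (Polynomial.isUnit_C.1 h3)
    · apply hqπ
      obtain ⟨u, rfl⟩ := h3
      rw [hg]
      exact (Units.mul_right_dvd).2 dvd_rfl
  have hirr : Irreducible (q.map (algebraMap v.valuationSubring P)) :=
    hprim.irreducible_iff_irreducible_map_fraction_map.1 hq.irreducible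
  set qP := q.map (algebraMap v.valuationSubring P) with hqP
  letI : Algebra P[X] K := algP (P := P) x
  haveI : IsFractionRing P[X] K := isFractionRing_algP hx hK
  have halg : ∀ f : P[X], algebraMap P[X] K f = Polynomial.aeval x f := fun _ => rfl
  let Q : IsDedekindDomain.HeightOneSpectrum P[X] :=
    { asIdeal := Ideal.span {qP}
      isPrime := (Ideal.span_singleton_prime hirr.ne_zero).2 hirr.prime
      ne_bot := by
        rw [Ne, Ideal.span_singleton_eq_bot]
        exact hirr.ne_zero }
  have hQ : Q.asIdeal = Ideal.span {qP} := rfl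
  have hQlt : ∀ f : P[X], Q.valuation K (algebraMap P[X] K f) < 1 ↔ qP ∣ f := by
    intro f
    rw [Q.valuation_lt_one_iff_mem, hQ, Ideal.mem_span_singleton]
  have hQle : ∀ f : P[X], Q.valuation K (algebraMap P[X] K f) ≤ 1 := Q.valuation_le_one
  have hnt : ∃ a : K, a ≠ 0 ∧ Q.valuation K a ≠ 1 := by
    refine ⟨algebraMap P[X] K qP, ?_, ((hQlt qP).2 dvd_rfl).ne⟩
    exact (map_ne_zero_iff _ (IsFractionRing.injective P[X] K)).2 hirr.ne_zero
  obtain ⟨w, hw⟩ := exists_extension (L := L) (Q.valuation K) hnt
  have hwlt : ∀ a : K, w (algebraMap K L a) < 1 ↔ Q.valuation K a < 1 := by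
    intro a
    rcases eq_or_ne a 0 with rfl | ha
    · simp
    · have h1 := hw a⁻¹
      have hwa : 0 < w (algebraMap K L a) :=
        zero_lt_iff.2 ((Valuation.ne_zero_iff w).2 ((map_ne_zero (algebraMap K L)).2 ha))
      have hva : 0 < Q.valuation K a := zero_lt_iff.2 ((Valuation.ne_zero_iff _).2 ha)
      rw [map_inv₀, map_inv₀, map_inv₀, inv_le_one₀ hwa, inv_le_one₀ hva] at h1
      rw [← not_le, ← not_le, h1]
  refine ⟨w, fun p hp => ?_, fun f => ?_, fun f => ?_⟩
  · have h1 : ∀ p : P, w (algebraMap P L p) ≤ 1 := by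
      intro p
      rw [IsScalarTower.algebraMap_apply P K L, hw]
      have h2 : algebraMap P K p = algebraMap P[X] K (Polynomial.C p) := by
        rw [halg, Polynomial.aeval_C]
      rw [h2]
      exact hQle _
    refine le_antisymm (h1 p) ?_
    have h3 := h1 p⁻¹
    have hwp : 0 < w (algebraMap P L p) :=
      zero_lt_iff.2 ((Valuation.ne_zero_iff w).2 ((map_ne_zero (algebraMap P L)).2 hp))
    rwa [map_inv₀, map_inv₀, inv_le_one₀ hwp] at h3
  · rw [hw, ← halg]
    exact hQle _
  · rw [hwlt, ← halg, hQlt, hqP]
    exact (hprim.dvd_iff_fraction_map_dvd_fraction_map P).symm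

end Pf72953.Pur
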