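import Mathlib
import Pool.Agent.Lib.Pf72953y.Defs

/-!
# The basis of `M / M'` over the principal ideal domain `A / (p)`
-/

set_option autoImplicit false

open scoped WithZero

namespace Pf72953.Pur

/-- the basis of `M / M'` over the principal ideal domain `A / (p)`: `M / M'` is a finite torsion
free module over `A / (p)` -/
theorem exists_basis_quot {A V : Type*} [CommRing A] [IsDomain A] [IsNoetherianRing A] {p : A}
    (hp : Prime p) [IsPrincipalIdealRing (A ⧸ Ideal.span {p})] [AddCommGroup V] [Module A V]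
    {M M' : Submodule A V} (hM : M.FG) (hle : M' ≤ M) (hpM : ∀ v ∈ M, p • v ∈ M')
    (htf : ∀ (f : A) (v : V), v ∈ M → ¬ p ∣ f → f • v ∈ M' → v ∈ M') :
    ∃ (n : ℕ) (s : Fin n → V), (∀ i, s i ∈ M) ∧
      (∀ v ∈ M, ∃ f : Fin n → A, v - ∑ i, f i • s i ∈ M') ∧
      ∀ f : Fin n → A, ∑ i, f i • s i ∈ M' → ∀ i, p ∣ f i := by
  classical
  have hprime : (Ideal.span {p} : Ideal A).IsPrime := (Ideal.span_singleton_prime hp.ne_zero).2 hp
  have hdom : IsDomain (A ⧸ Ideal.span {p}) := Ideal.Quotient.isDomain _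
  let N : Submodule A M := M'.submoduleOf M
  have hN : ∀ v : M, v ∈ N ↔ (v : V) ∈ M' := fun v => Submodule.mem_comap
  have hmk : ∀ v : M, (Submodule.Quotient.mk v : M ⧸ N) = 0 ↔ (v : V) ∈ M' := fun v => by
    rw [Submodule.Quotient.mk_eq_zero, hN]
  have htors : Module.IsTorsionBySet A (M ⧸ N) (Ideal.span {p} : Ideal A) := by
    rintro x ⟨a, ha⟩
    obtain ⟨v, rfl⟩ := Submodule.Quotient.mk_surjective N x
    obtain ⟨c, rfl⟩ := Ideal.mem_span_singleton'.1 ha
    show (c * p) • (Submodule.Quotient.mk v : M ⧸ N) = 0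
    rw [← Submodule.Quotient.mk_smul, hmk]
    show (c * p) • (v : V) ∈ M'
    rw [mul_smul]
    exact M'.smul_mem c (hpM v v.2)
  letI : Module (A ⧸ Ideal.span {p}) (M ⧸ N) := htors.module
  have hsm : ∀ (b : A) (x : M ⧸ N), (Ideal.Quotient.mk (Ideal.span {p}) b) • x = b • x :=
    fun b x => rfl
  haveI : IsScalarTower A (A ⧸ Ideal.span {p}) (M ⧸ N) := htors.isScalarTower
  haveI : Module.Finite A M := Module.Finite.iff_fg.2 hM
  haveI : Module.Finite A (M ⧸ N) := inferInstance
  haveI : Module.Finite (A ⧸ Ideal.span {p}) (M ⧸ N) :=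
    Module.Finite.of_restrictScalars_finite A (A ⧸ Ideal.span {p}) (M ⧸ N)
  haveI : Module.IsTorsionFree (A ⧸ Ideal.span {p}) (M ⧸ N) := by
    refine Module.IsTorsionFree.of_smul_eq_zero fun r x hr => ?_
    obtain ⟨f, rfl⟩ := Ideal.Quotient.mk_surjective r
    obtain ⟨v, rfl⟩ := Submodule.Quotient.mk_surjective N x
    rw [hsm, ← Submodule.Quotient.mk_smul, hmk] at hr
    by_cases hf : p ∣ f
    · left
      rw [Ideal.Quotient.eq_zero_iff_mem, Ideal.mem_span_singleton]
      exact hf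
    · right
      rw [hmk]
      exact htf f v v.2 hf hr
  obtain ⟨n, b⟩ := Module.basisOfFiniteTypeTorsionFree' (R := A ⧸ Ideal.span {p}) (M := M ⧸ N)
  choose s hs using fun i => Submodule.Quotient.mk_surjective N (b i)
  have hsum : ∀ f : Fin n → A, (Submodule.Quotient.mk (∑ i, f i • s i) : M ⧸ N) =
      ∑ i, (Ideal.Quotient.mk (Ideal.span {p}) (f i)) • b i := by
    intro f
    rw [← Submodule.mkQ_apply, map_sum]
    refine Finset.sum_congr rfl fun i _ => ?_
    rw [map_smul, Submodule.mkQ_apply, hs, hsm]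
  have hcoe : ∀ f : Fin n → A, ((∑ i, f i • s i : M) : V) = ∑ i, f i • (s i : V) := by
    intro f
    simp
  refine ⟨n, fun i => (s i : V), fun i => (s i).2, fun v hv => ?_, fun f hf i => ?_⟩
  · choose f hf using fun i => Ideal.Quotient.mk_surjective
      (b.repr (Submodule.Quotient.mk (⟨v, hv⟩ : M) : M ⧸ N) i)
    refine ⟨f, ?_⟩
    have h1 : (Submodule.Quotient.mk ((⟨v, hv⟩ : M) - ∑ i, f i • s i) : M ⧸ N) = 0 := by
      rw [Submodule.Quotient.mk_sub, hsum, sub_eq_zero]
      conv_lhs => rw [← b.sum_repr (Submodule.Quotient.mk (⟨v, hv⟩ : M) : M ⧸ N)]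
      exact Finset.sum_congr rfl fun i _ => by rw [hf]
    have h2 := (hmk _).1 h1
    rwa [Submodule.coe_sub, hcoe] at h2
  · have h1 : (Submodule.Quotient.mk (∑ i, f i • s i) : M ⧸ N) = 0 := by
      rw [hmk, hcoe]
      exact hf
    rw [hsum] at h1
    have h2 := Fintype.linearIndependent_iff.1 b.linearIndependent
      (fun i => Ideal.Quotient.mk (Ideal.span {p}) (f i)) h1 i
    rwa [Ideal.Quotient.eq_zero_iff_mem, Ideal.mem_span_singleton] at h2

end Pf72953.Pur
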