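import Mathlib
import Pool.Agent.Lib.Pf72953y.Filt
import Pool.Agent.Lib.Pf72953y.Quot

/-!
Purity of the branch locus over `O_v[x]`: a frame of the integral closure compatible with the filtration.
-/

set_option autoImplicit false
set_option linter.style.haveILetI false

open scoped WithZero
open Pf72953

namespace Pf72953.Pur

section filt

variable {A K L : Type*} [CommRing A] [IsDomain A] [UniqueFactorizationMonoid A]
  [Field K] [Algebra A K] [IsFractionRing A K]
  [Field L] [Algebra K L] [Algebra A L] [IsScalarTower A K L] [FiniteDimensional K L] [IsGalois K L]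

/-- the filtration of the integral closure by the values of the conjugates -/
def Mf (A : Type*) {K L : Type*} [CommRing A] [Field K] [Field L] [Algebra A L] [Algebra K L]
    [Algebra A K] [IsScalarTower A K L] (w : Valuation L ℤᵐ⁰) (ρ : ℤᵐ⁰) (hA : ∀ f : A, w (algebraMap A L f) ≤ 1)
    (a : ℕ) : Submodule A L where
  carrier := {b | IsIntegral A b ∧ ∀ σ : L ≃ₐ[K] L, w (σ b) ≤ ρ ^ a}
  add_mem' := fun {b c} hb hc => ⟨hb.1.add hc.1, fun σ => by
    rw [map_add]; exact (w.map_add _ _).trans (max_le (hb.2 σ) (hc.2 σ))⟩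
  zero_mem' := ⟨isIntegral_zero, fun σ => by rw [map_zero, map_zero]; exact zero_le⟩
  smul_mem' := fun f b hb => ⟨hb.1.smul f, fun σ => by
    rw [Algebra.smul_def, map_mul, IsScalarTower.algebraMap_apply A K L, AlgEquiv.commutes,
      ← IsScalarTower.algebraMap_apply A K L, map_mul]
    exact (mul_le_mul' (hA f) (hb.2 σ)).trans_eq (one_mul _)⟩

variable {p : A} {w : Valuation L ℤᵐ⁰} {ρ : ℤᵐ⁰} {r : ℕ}

omit [IsDomain A] [UniqueFactorizationMonoid A] [IsFractionRing A K] [FiniteDimensional K L]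
  [IsGalois K L] in
theorem sigma_A (σ : L ≃ₐ[K] L) (f : A) : σ (algebraMap A L f) = algebraMap A L f := by
  rw [IsScalarTower.algebraMap_apply A K L, AlgEquiv.commutes]

omit [IsDomain A] [UniqueFactorizationMonoid A] [IsFractionRing A K] [FiniteDimensional K L]
  [IsGalois K L] in
theorem mem_Mf {hA : ∀ f : A, w (algebraMap A L f) ≤ 1} {a : ℕ} {b : L} :
    b ∈ Mf A (K := K) w ρ hA a ↔ IsIntegral A b ∧ ∀ σ : L ≃ₐ[K] L, w (σ b) ≤ ρ ^ a := Iff.rfl

omit [IsDomain A] [UniqueFactorizationMonoid A] [IsFractionRing A K] [FiniteDimensional K L]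
  [IsGalois K L] in
theorem Mf_anti {hA : ∀ f : A, w (algebraMap A L f) ≤ 1} (hρ : ρ ≤ 1) {a a' : ℕ} (h : a ≤ a') :
    Mf A (K := K) w ρ hA a' ≤ Mf A (K := K) w ρ hA a := fun _ hb =>
  ⟨hb.1, fun σ => (hb.2 σ).trans (pow_le_pow_right_of_le_one' hρ h)⟩

omit [UniqueFactorizationMonoid A] [IsFractionRing A K] [FiniteDimensional K L]
  [IsGalois K L] in
theorem mem_Mf_zero {hA : ∀ f : A, w (algebraMap A L f) ≤ 1} {b : L} (hb : IsIntegral A b) :
    b ∈ Mf A (K := K) w ρ hA 0 :=
  ⟨hb, fun σ => by rw [pow_zero]; exact le_one_of_isIntegral hA (hb.map (σ.restrictScalars A))⟩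

omit [IsDomain A] [UniqueFactorizationMonoid A] [IsFractionRing A K] [FiniteDimensional K L]
  [IsGalois K L] in
theorem smul_mem_Mf {hA : ∀ f : A, w (algebraMap A L f) ≤ 1} (hr : ρ ^ r = w (algebraMap A L p))
    {a m : ℕ} {b : L} (hb : b ∈ Mf A (K := K) w ρ hA a) :
    p ^ m • b ∈ Mf A (K := K) w ρ hA (a + r * m) :=
  ⟨hb.1.smul _, fun σ => by
    rw [Algebra.smul_def, map_mul, sigma_A, map_mul, map_pow, map_pow, ← hr, ← pow_mul, pow_add,
      mul_comm]
    exact mul_le_mul' (hb.2 σ) le_rfl⟩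

theorem of_smul_mem_Mf (hp : Prime p) (hw : OverPrime w p) (hρ : ρ ≤ 1)
    (hr : ρ ^ r = w (algebraMap A L p)) {a m : ℕ} {b : L}
    (hb : p ^ m • b ∈ Mf A (K := K) w ρ hw.le_one (a + r * m)) :
    b ∈ Mf A (K := K) w ρ hw.le_one a := by
  have hp0 : 0 < w (algebraMap A L p) :=
    zero_lt_iff.2 (val_q_ne_zero (algebraMap_inj A K L) hp w)
  induction m with
  | zero => simpa using hb
  | succ m ih =>
    have hval : ∀ σ : L ≃ₐ[K] L, w (σ (p ^ m • b)) ≤ ρ ^ (a + r * m) := by
      intro σ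
      have h1 := hb.2 σ
      rw [pow_succ', mul_smul, Algebra.smul_def, map_mul, sigma_A, map_mul,
        show a + r * (m + 1) = r + (a + r * m) by ring, pow_add, hr] at h1
      exact (mul_le_mul_iff_of_pos_left hp0).mp h1
    refine ih ⟨?_, hval⟩
    refine isIntegral_of_mul (K := K) hp hw (b := p ^ m • b) ?_ fun σ =>
      (hval σ).trans (pow_le_one₀ zero_le hρ)
    have h2 := hb.1
    rw [pow_succ', mul_smul, Algebra.smul_def] at h2
    exact h2

omit [UniqueFactorizationMonoid A] [IsFractionRing A K] [FiniteDimensional K L]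
  [IsGalois K L] [IsDomain A] in
theorem tf_Mf (hw : OverPrime w p) {a a' : ℕ} {f : A} {b : L}
    (hb : b ∈ Mf A (K := K) w ρ hw.le_one a) (hf : ¬ p ∣ f)
    (h : f • b ∈ Mf A (K := K) w ρ hw.le_one a') : b ∈ Mf A (K := K) w ρ hw.le_one a' := by
  refine ⟨hb.1, fun σ => ?_⟩
  have h1 := h.2 σ
  have h2 : w (algebraMap A L f) = 1 :=
    le_antisymm (hw.le_one f) (not_lt.1 fun h => hf ((hw.lt_one f).1 h))
  rwa [Algebra.smul_def, map_mul, sigma_A, map_mul, h2, one_mul] at h1

theorem fg_Mf [IsNoetherianRing A] {hA : ∀ f : A, w (algebraMap A L f) ≤ 1} (a : ℕ) :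
    (Mf A (K := K) w ρ hA a).FG := by
  haveI : IsNoetherian A (integralClosure A L) :=
    IsIntegralClosure.isNoetherian A K L (integralClosure A L)
  have h1 : Mf A (K := K) w ρ hA a ≤ Subalgebra.toSubmodule (integralClosure A L) :=
    fun b hb => hb.1
  have h2 : (Mf A (K := K) w ρ hA a) =
      ((Mf A (K := K) w ρ hA a).comap (Subalgebra.toSubmodule (integralClosure A L)).subtype).map
        (Subalgebra.toSubmodule (integralClosure A L)).subtype := by
    rw [Submodule.map_comap_subtype, inf_eq_right.2 h1]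
  rw [h2]
  exact (IsNoetherian.noetherian (R := A) (M := integralClosure A L) _).map _

/-- orthogonality of a graded frame -/
theorem orth {J : Type*} [Fintype J] {s : J → L} {α : J → ℕ} (hp : Prime p) (hw : OverPrime w p)
    (hρ : ρ < 1) (hρ0 : ρ ≠ 0) (hr0 : 0 < r) (hr : ρ ^ r = w (algebraMap A L p))
    (hα : ∀ j, α j < r) (hs : ∀ j, s j ∈ Mf A (K := K) w ρ hw.le_one (α j))
    (hind : ∀ a < r, ∀ f : J → A, (∀ j, α j ≠ a → f j = 0) →
      ∑ j, f j • s j ∈ Mf A (K := K) w ρ hw.le_one (a + 1) → ∀ j, p ∣ f j)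
    (a : ℕ) (f : J → A) (hf : ∑ j, f j • s j ∈ Mf A (K := K) w ρ hw.le_one a) (j : J) :
    w (algebraMap A L (f j)) * ρ ^ α j ≤ ρ ^ a := by
  classical
  have hinj := algebraMap_inj A K L
  induction a generalizing j with
  | zero =>
    rw [pow_zero]
    exact mul_le_one' (hw.le_one _) (pow_le_one₀ zero_le hρ.le)
  | succ a ih =>
    have IH := ih (Mf_anti hρ.le (Nat.le_succ a) hf)
    set l := a / r with hl
    set a' := a % r with ha'
    have haa : a = a' + r * l := by rw [ha', hl]; exact (Nat.mod_add_div a r).symm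
    have ha'r : a' < r := Nat.mod_lt _ hr0
    -- the exponents
    have hexp : ∀ j, f j ≠ 0 → ∃ m, p ^ m ∣ f j ∧ w (algebraMap A L (f j)) = ρ ^ (r * m) ∧
        a ≤ r * m + α j := by
      intro j hj
      obtain ⟨m, g, hg, hfg, hm⟩ := exists_val hp hw hj
      rw [← hr, ← pow_mul] at hm
      refine ⟨m, ⟨g, hfg⟩, hm, ?_⟩
      have h1 := IH j
      rw [hm, ← pow_add] at h1
      by_contra hc
      rw [not_le] at hc
      exact absurd h1 (not_le.2 (pow_lt_pow_right_of_lt_one₀ (zero_lt_iff.2 hρ0) hρ hc))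
    -- the terms of another degree
    have hoff : ∀ j, α j ≠ a' → w (algebraMap A L (f j)) * ρ ^ α j ≤ ρ ^ (a + 1) := by
      intro j hj
      rcases eq_or_ne (f j) 0 with h0 | h0
      · rw [h0, map_zero, map_zero, zero_mul]; exact zero_le
      obtain ⟨m, -, hm, hle⟩ := hexp j h0
      rw [hm, ← pow_add]
      refine pow_le_pow_right_of_le_one' hρ.le ?_
      rcases Nat.lt_or_ge a (r * m + α j) with h1 | h1
      · omega
      · exfalso
        apply hj
        have h2 : a = r * m + α j := by omega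
        rw [ha', h2, Nat.mul_add_mod, Nat.mod_eq_of_lt (hα j)]
    have hoff' : ∀ j, α j ≠ a' → f j • s j ∈ Mf A (K := K) w ρ hw.le_one (a + 1) := by
      intro j hj
      refine ⟨(hs j).1.smul _, fun σ => ?_⟩
      rw [Algebra.smul_def, map_mul, sigma_A, map_mul]
      exact (mul_le_mul' le_rfl ((hs j).2 σ)).trans (hoff j hj)
    -- the terms of the degree `a'`
    have hon : ∀ j, ∃ g : A, (α j = a' → f j = p ^ l * g) ∧ (α j ≠ a' → g = 0) := by
      intro j
      by_cases hj : α j = a'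
      · rcases eq_or_ne (f j) 0 with h0 | h0
        · exact ⟨0, fun _ => by rw [h0, mul_zero], fun _ => rfl⟩
        obtain ⟨m, hm, -, hle⟩ := hexp j h0
        have h2 : l ≤ m := by
          rw [hj, haa] at hle
          have h3 : r * l ≤ r * m := by omega
          exact Nat.le_of_mul_le_mul_left h3 hr0
        obtain ⟨g, hg⟩ := (pow_dvd_pow p h2).trans hm
        exact ⟨g, fun _ => hg, fun h => absurd hj h⟩
      · exact ⟨0, fun h => absurd h hj, fun _ => rfl⟩
    choose g hg hg0 using hon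
    have hsum : p ^ l • ∑ j, g j • s j = ∑ j, f j • s j -
        ∑ j ∈ Finset.univ.filter (fun j => α j ≠ a'), f j • s j := by
      rw [Finset.smul_sum, ← Finset.sum_filter_add_sum_filter_not Finset.univ
        (fun j => α j ≠ a') (fun j => f j • s j), add_sub_cancel_left,
        ← Finset.sum_filter_add_sum_filter_not Finset.univ
        (fun j => α j ≠ a') (fun j => p ^ l • g j • s j)]
      rw [Finset.sum_eq_zero (s := Finset.univ.filter (fun j => α j ≠ a')), zero_add]
      · refine Finset.sum_congr rfl fun j hj => ?_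
        have hj' : α j = a' := by simpa using hj
        rw [← mul_smul, ← hg j hj']
      · intro j hj
        have hj' : α j ≠ a' := by simpa using hj
        rw [hg0 j hj', zero_smul, smul_zero]
    have hmem : p ^ l • ∑ j, g j • s j ∈ Mf A (K := K) w ρ hw.le_one ((a' + 1) + r * l) := by
      rw [hsum, show a' + 1 + r * l = a + 1 by omega]
      refine Submodule.sub_mem _ hf (Submodule.sum_mem _ fun j hj => hoff' j ?_)
      simpa using hj
    have hmem' := of_smul_mem_Mf hp hw hρ.le hr hmem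
    have hdvd := hind a' ha'r g hg0 hmem'
    by_cases hj : α j = a'
    · obtain ⟨g', hg'⟩ := hdvd j
      rw [hg j hj, hg', ← mul_assoc, ← pow_succ, map_mul, map_mul, map_pow, map_pow, hj, ← hr,
        ← pow_mul]
      calc ρ ^ (r * (l + 1)) * w (algebraMap A L g') * ρ ^ a'
          ≤ ρ ^ (r * (l + 1)) * 1 * ρ ^ a' :=
            mul_le_mul' (mul_le_mul' le_rfl (hw.le_one _)) le_rfl
        _ = ρ ^ (r * (l + 1) + a') := by rw [mul_one, ← pow_add]
        _ ≤ ρ ^ (a + 1) := pow_le_pow_right_of_le_one' hρ.le (by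
            rw [Nat.mul_succ]; omega)
    · exact hoff j hj

/-- a frame of the integral closure compatible with the filtration -/
theorem exists_frame [IsNoetherianRing A] [IsPrincipalIdealRing (A ⧸ Ideal.span {p})]
    (hp : Prime p) (hw : OverPrime w p) (hρ : ρ < 1) (hρ0 : ρ ≠ 0) (hr0 : 0 < r)
    (hr : ρ ^ r = w (algebraMap A L p)) :
    ∃ (s : (L ≃ₐ[K] L) → L) (α : (L ≃ₐ[K] L) → ℕ) (a₀ : A),
      (∀ j, s j ∈ Mf A (K := K) w ρ hw.le_one (α j)) ∧ p ∣ a₀ - 1 ∧
      (∀ b : L, IsIntegral A b → ∃ f : (L ≃ₐ[K] L) → A, a₀ • b = ∑ j, f j • s j) ∧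
      ∀ (a : ℕ) (f : (L ≃ₐ[K] L) → A), ∑ j, f j • s j ∈ Mf A (K := K) w ρ hw.le_one a →
        ∀ j, w (algebraMap A L (f j)) * ρ ^ α j ≤ ρ ^ a := by
  classical
  -- the graded pieces
  have hgr : ∀ a : Fin r, ∃ (n : ℕ) (s : Fin n → L),
      (∀ i, s i ∈ Mf A (K := K) w ρ hw.le_one a) ∧
      (∀ v ∈ Mf A (K := K) w ρ hw.le_one a, ∃ f : Fin n → A,
        v - ∑ i, f i • s i ∈ Mf A (K := K) w ρ hw.le_one (a + 1)) ∧
      ∀ f : Fin n → A, ∑ i, f i • s i ∈ Mf A (K := K) w ρ hw.le_one (a + 1) → ∀ i, p ∣ f i := by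
    intro a
    refine exists_basis_quot hp (fg_Mf a) (Mf_anti hρ.le (Nat.le_succ _)) (fun v hv => ?_)
      (fun f v hv hf h => tf_Mf hw hv hf h)
    have h1 := smul_mem_Mf (m := 1) hr hv
    rw [pow_one, mul_one] at h1
    exact Mf_anti hρ.le (by omega) h1
  choose n s hs hspan hind using hgr
  let J := Σ a : Fin r, Fin (n a)
  let S : J → L := fun j => s j.1 j.2
  let α : J → ℕ := fun j => j.1
  have hS : ∀ j, S j ∈ Mf A (K := K) w ρ hw.le_one (α j) := fun j => hs j.1 j.2
  have hα : ∀ j, α j < r := fun j => j.1.2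
  have hind' : ∀ a < r, ∀ f : J → A, (∀ j, α j ≠ a → f j = 0) →
      ∑ j, f j • S j ∈ Mf A (K := K) w ρ hw.le_one (a + 1) → ∀ j, p ∣ f j := by
    intro a ha f hf hmem j
    have h1 : ∑ j, f j • S j = ∑ i, f ⟨⟨a, ha⟩, i⟩ • s ⟨a, ha⟩ i := by
      rw [Fintype.sum_sigma]
      refine (Finset.sum_eq_single (⟨a, ha⟩ : Fin r) ?_ ?_).trans rfl
      · intro b _ hb
        refine Finset.sum_eq_zero fun i _ => ?_
        rw [hf ⟨b, i⟩ (fun h => hb (Fin.ext h)), zero_smul]
      · intro h
        exact absurd (Finset.mem_univ _) h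
    rw [h1] at hmem
    by_cases hj : α j = a
    · obtain ⟨b, i⟩ := j
      have hb : b = ⟨a, ha⟩ := Fin.ext hj
      subst hb
      exact hind ⟨a, ha⟩ (fun i => f ⟨⟨a, ha⟩, i⟩) hmem i
    · rw [hf j hj]; exact dvd_zero _
  have horth := fun a f hf j => orth hp hw hρ hρ0 hr0 hr hα hS hind' a f hf j
  -- Nakayama
  set I : Ideal A := Ideal.span {p} with hI
  set T : Submodule A L := Submodule.span A (Set.range S) with hT
  have hstep : ∀ a ≤ r, Mf A (K := K) w ρ hw.le_one 0 ≤ T ⊔ Mf A (K := K) w ρ hw.le_one a := by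
    intro a
    induction a with
    | zero => exact fun _ => le_sup_right
    | succ a ih =>
      intro ha
      refine (ih (by omega)).trans (sup_le le_sup_left ?_)
      intro v hv
      obtain ⟨f, hf⟩ := hspan ⟨a, ha⟩ v hv
      have h1 : v = ∑ i, f i • s ⟨a, ha⟩ i + (v - ∑ i, f i • s ⟨a, ha⟩ i) := by ring
      rw [h1]
      refine Submodule.add_mem_sup (Submodule.sum_mem _ fun i _ => Submodule.smul_mem _ _
        (Submodule.subset_span ⟨⟨⟨a, ha⟩, i⟩, rfl⟩)) hf
  have hlast : Mf A (K := K) w ρ hw.le_one r ≤ I • Mf A (K := K) w ρ hw.le_one 0 := by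
    intro b hb
    have hp0 : algebraMap A L p ≠ 0 := fun h => hp.ne_zero
      (algebraMap_inj A K L (by rw [h, map_zero]))
    have h1 : b = p • ((algebraMap A L p)⁻¹ * b) := by
      rw [Algebra.smul_def, mul_inv_cancel_left₀ hp0]
    rw [h1]
    refine Submodule.smul_mem_smul (Ideal.mem_span_singleton_self p) ?_
    refine of_smul_mem_Mf (m := 1) hp hw hρ.le hr ?_
    rw [pow_one, ← h1, mul_one, zero_add]
    exact hb
  obtain ⟨a₀, ha₀, hle⟩ := Submodule.exists_sub_one_mem_and_smul_le_of_fg_of_le_sup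
    (I := I) (N := T) (N' := Mf A (K := K) w ρ hw.le_one 0) (P := Mf A (K := K) w ρ hw.le_one 0)
    (fg_Mf 0) le_rfl ((hstep r le_rfl).trans (sup_le_sup_left hlast T))
  have hgen : ∀ b : L, IsIntegral A b → ∃ f : J → A, a₀ • b = ∑ j, f j • S j := by
    intro b hb
    have h1 : a₀ • b ∈ T := hle (Submodule.smul_mem_pointwise_smul b a₀ _ (mem_Mf_zero hb))
    obtain ⟨f, hf⟩ := (Submodule.mem_span_range_iff_exists_fun A).1 h1
    exact ⟨f, hf.symm⟩
  have ha₀0 : a₀ ≠ 0 := by
    rintro rfl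
    rw [zero_sub, hI, Ideal.neg_mem_iff, Ideal.mem_span_singleton] at ha₀
    exact hp.not_unit (isUnit_of_dvd_one ha₀)
  -- a basis over `K`
  have hli : LinearIndependent K S := by
    rw [← LinearIndependent.iff_fractionRing A K, Fintype.linearIndependent_iff]
    intro f hf j
    by_contra hj
    obtain ⟨m, g, hg, hfg, hm⟩ := exists_val hp hw hj
    have h1 := horth (r * m + α j + 1) f (by rw [hf]; exact Submodule.zero_mem _) j
    rw [hm, ← hr, ← pow_mul, ← pow_add] at h1
    exact absurd h1 (not_le.2 (pow_lt_pow_right_of_lt_one₀ (zero_lt_iff.2 hρ0) hρ (by omega)))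
  have hsp : ⊤ ≤ Submodule.span K (Set.range S) := by
    intro z _
    obtain ⟨d, hd0, hd⟩ := (show IsAlgebraic A z from (IsFractionRing.isAlgebraic_iff A K L).2
        (Algebra.IsAlgebraic.isAlgebraic z)).exists_integral_multiple
    obtain ⟨f, hf⟩ := hgen _ hd
    have h1 : algebraMap A L (a₀ * d) ≠ 0 := fun h => mul_ne_zero ha₀0 hd0
      (algebraMap_inj A K L (by rw [h, map_zero]))
    have h2 : z = (algebraMap A K (a₀ * d))⁻¹ • ∑ j, (algebraMap A K (f j)) • S j := by
      have h3 : ∑ j, (algebraMap A K (f j)) • S j = algebraMap A L (a₀ * d) * z := by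
        simp only [algebraMap_smul]
        rw [← hf, map_mul, mul_assoc, Algebra.smul_def, Algebra.smul_def]
      rw [h3, Algebra.smul_def, map_inv₀, ← IsScalarTower.algebraMap_apply A K L,
        inv_mul_cancel_left₀ h1]
    rw [h2]
    exact Submodule.smul_mem _ _ (Submodule.sum_mem _ fun j _ => Submodule.smul_mem _ _
      (Submodule.subset_span ⟨j, rfl⟩))
  have hcard : Fintype.card J = Fintype.card (L ≃ₐ[K] L) := by
    rw [← Module.finrank_eq_card_basis (Module.Basis.mk hli hsp), ← Nat.card_eq_fintype_card,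
      IsGalois.card_aut_eq_finrank]
  obtain ⟨e⟩ : Nonempty ((L ≃ₐ[K] L) ≃ J) := ⟨Fintype.equivOfCardEq hcard.symm⟩
  refine ⟨S ∘ e, α ∘ e, a₀, fun j => hS _, Ideal.mem_span_singleton.1 ha₀, fun b hb => ?_,
    fun a f hf j => ?_⟩
  · obtain ⟨f, hf⟩ := hgen b hb
    refine ⟨f ∘ e, ?_⟩
    rw [hf]
    exact (Equiv.sum_comp e (fun j => f j • S j)).symm
  · have h1 : ∑ j, f j • (S ∘ e) j = ∑ j, (f ∘ e.symm) j • S j := by
      rw [← Equiv.sum_comp e (fun j => (f ∘ e.symm) j • S j)]
      refine Finset.sum_congr rfl fun i _ => ?_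
      simp
    rw [h1] at hf
    have h2 := horth a (f ∘ e.symm) hf (e j)
    simpa using h2

end filt

end Pf72953.Pur
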