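import Mathlib
import Pool.Agent.Lib.Pf72953y.Defs
import Pool.Agent.Lib.Pf72953b.Inertia

/-!
# Elements of the valuation ring of `w` are quotients of integral elements

Let `D` be the decomposition group (`Dc w σ`). By `InertiaAux.approx` there is `e` with
`w (e - 1) < 1` and `w (σ e) * max 1 (w (σ z) / w z) < 1` for `σ ∉ D`. So `w (σ e), w (σ (e z)) ≤ 1`
for all `σ`; the coefficients of the minimal polynomials of `e` and `e z` are `c ∈ K` with `w c ≤ 1`,
so there is `a ∈ A`, not divisible by `q`, with `a c ∈ A` (reduced fractions), and `a e`, `a e z` are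
integral over `A` for a suitable `a`, not divisible by `q`.
-/

set_option autoImplicit false

open scoped WithZero
open Pf72953 Polynomial

namespace Pf72953.Pur

section coeffs

variable {L : Type*} [Field L] (w : Valuation L ℤᵐ⁰)

lemma coeff_mul_le {p q : L[X]} (hp : ∀ i, w (p.coeff i) ≤ 1) (hq : ∀ i, w (q.coeff i) ≤ 1)
    (i : ℕ) : w ((p * q).coeff i) ≤ 1 := by
  rw [coeff_mul]
  refine w.map_sum_le fun x _ => ?_
  rw [map_mul]
  exact mul_le_one' (hp _) (hq _)

lemma coeff_X_sub_C_le {r : L} (hr : w r ≤ 1) (i : ℕ) : w ((X - C r : L[X]).coeff i) ≤ 1 := by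
  rw [coeff_sub, coeff_X, coeff_C]
  refine (w.map_sub _ _).trans (max_le ?_ ?_)
  · split_ifs
    · rw [map_one]
    · rw [map_zero]
      exact zero_le
  · split_ifs
    · exact hr
    · rw [map_zero]
      exact zero_le

lemma coeff_prod_le (s : Multiset L) (hs : ∀ r ∈ s, w r ≤ 1) (i : ℕ) :
    w ((s.map fun r => (X - C r : L[X])).prod.coeff i) ≤ 1 := by
  induction s using Multiset.induction_on generalizing i with
  | empty =>
    rw [Multiset.map_zero, Multiset.prod_zero, coeff_one]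
    split_ifs
    · rw [map_one]
    · rw [map_zero]
      exact zero_le
  | cons a s ih =>
    rw [Multiset.map_cons, Multiset.prod_cons]
    exact coeff_mul_le w (coeff_X_sub_C_le w (hs a (Multiset.mem_cons_self a s)))
      (fun j => ih (fun r hr => hs r (Multiset.mem_cons_of_mem hr)) j) i

end coeffs

section

variable {A K L : Type*} [CommRing A] [IsDomain A] [UniqueFactorizationMonoid A]
  [Field K] [Algebra A K] [IsFractionRing A K] [Field L] [Algebra K L] [Algebra A L]
  [IsScalarTower A K L]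

omit [IsDomain A] [UniqueFactorizationMonoid A] [IsFractionRing A K] in
lemma OverPrime.eq_one {q : A} {w : Valuation L ℤᵐ⁰} (hw : OverPrime w q) {f : A} (hf : ¬ q ∣ f) :
    w (algebraMap A L f) = 1 :=
  le_antisymm (hw.le_one f) (not_lt.1 fun h => hf ((hw.lt_one f).1 h))

/-- denominators -/
lemma exists_denom {q : A} (hq : Prime q) {w : Valuation L ℤᵐ⁰} (hw : OverPrime w q) {c : K}
    (hc : w (algebraMap K L c) ≤ 1) :
    ∃ b : A, ¬ q ∣ b ∧ ∃ a : A, algebraMap A K a = algebraMap A K b * c := by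
  obtain ⟨a, b, hab, hc'⟩ := IsFractionRing.exists_reduced_fraction A c
  have hb0 : algebraMap A K b ≠ 0 := IsFractionRing.to_map_ne_zero_of_mem_nonZeroDivisors b.2
  have hbc : algebraMap A K a = algebraMap A K b * c := by
    rw [← hc', IsLocalization.mul_mk'_eq_mk'_of_mul, IsLocalization.mk'_mul_cancel_left]
  refine ⟨b, fun hqb => ?_, a, hbc⟩
  by_cases hqa : q ∣ a
  · exact hq.not_unit (hab hqa hqb)
  · have h1 : w (algebraMap A L a) = 1 := OverPrime.eq_one hw hqa
    have h2 : w (algebraMap A L b) < 1 := (hw.lt_one b).2 hqb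
    rw [IsScalarTower.algebraMap_apply A K L, hbc, map_mul, map_mul,
      ← IsScalarTower.algebraMap_apply A K L] at h1
    have h3 : w (algebraMap A L b) * w (algebraMap K L c) ≤ w (algebraMap A L b) * 1 :=
      mul_le_mul_right hc _
    rw [h1, mul_one] at h3
    exact absurd h2 (not_lt.2 h3)

/-- a root of a monic polynomial with coefficients in the valuation ring -/
lemma exists_int_mul {q : A} (hq : Prime q) {w : Valuation L ℤᵐ⁰} (hw : OverPrime w q) {x : L}
    {P : K[X]} (hP : P.Monic) (hx : aeval x P = 0) (hc : ∀ i, w (algebraMap K L (P.coeff i)) ≤ 1) :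
    ∃ a : A, ¬ q ∣ a ∧ IsIntegral A (algebraMap A L a * x) := by
  choose b hb a ha using fun i => exists_denom hq hw (hc i)
  set d := P.natDegree with hd
  set m : A := ∏ i ∈ Finset.range d, b i with hm
  have hqm : ¬ q ∣ m := by
    intro h
    obtain ⟨i, _, h1⟩ := (hq.dvd_finsetProd_iff _).1 h
    exact hb i h1
  refine ⟨m, hqm, ?_⟩
  have hmc : ∀ i < d, ∃ s : A, algebraMap A K s = algebraMap A K m * P.coeff i := by
    intro i hi
    refine ⟨(∏ j ∈ (Finset.range d).erase i, b j) * a i, ?_⟩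
    rw [hm, ← Finset.mul_prod_erase (Finset.range d) b (Finset.mem_range.2 hi), map_mul, map_mul,
      ha i]
    ring
  have hlift : P.scaleRoots (algebraMap A K m) ∈ Polynomial.lifts (algebraMap A K) := by
    rw [Polynomial.lifts_iff_coeff_lifts]
    intro i
    rw [coeff_scaleRoots]
    rcases lt_trichotomy i d with hi | hi | hi
    · obtain ⟨s, hs⟩ := hmc i hi
      refine ⟨s * m ^ (d - i - 1), ?_⟩
      rw [map_mul, map_pow, hs, ← hd]
      have h1 : d - i = (d - i - 1) + 1 := by omega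
      conv_rhs => rw [h1, pow_succ]
      ring
    · refine ⟨1, ?_⟩
      rw [hi, hd, hP.coeff_natDegree, map_one, Nat.sub_self, pow_zero, mul_one]
    · refine ⟨0, ?_⟩
      rw [coeff_eq_zero_of_natDegree_lt (by omega), map_zero, zero_mul]
  obtain ⟨Q, hQ, -, hQm⟩ := Polynomial.lifts_and_degree_eq_and_monic hlift
    ((Polynomial.monic_scaleRoots_iff (algebraMap A K m)).2 hP)
  refine ⟨Q, hQm, ?_⟩
  have h2 : aeval (algebraMap K L (algebraMap A K m) * x) (P.scaleRoots (algebraMap A K m)) = 0 :=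
    scaleRoots_aeval_eq_zero hx
  rw [← hQ, ← IsScalarTower.algebraMap_apply A K L] at h2
  rw [← h2, aeval_map_algebraMap, aeval_def]

/-- an element all of whose conjugates are in the valuation ring -/
lemma exists_int_mul' [FiniteDimensional K L] [IsGalois K L] {q : A} (hq : Prime q)
    {w : Valuation L ℤᵐ⁰} (hw : OverPrime w q) {x : L} (hx : ∀ σ : L ≃ₐ[K] L, w (σ x) ≤ 1) :
    ∃ a : A, ¬ q ∣ a ∧ IsIntegral A (algebraMap A L a * x) := by
  have hint : IsIntegral K x := IsIntegral.of_finite K x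
  refine exists_int_mul (K := K) (P := minpoly K x) hq hw (minpoly.monic hint) (minpoly.aeval K x) ?_
  intro i
  have hsp : ((minpoly K x).map (algebraMap K L)).Splits :=
    Normal.splits inferInstance x
  have hprod := hsp.eq_prod_roots_of_monic ((minpoly.monic hint).map (algebraMap K L))
  rw [← coeff_map, hprod]
  refine coeff_prod_le w _ ?_ i
  intro r hr
  have h1 : aeval r (minpoly K x) = 0 := by
    have h2 := (mem_roots'.1 hr).2
    rwa [IsRoot.def, eval_map_algebraMap] at h2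
  have h3 : IsConjRoot K x r := (isConjRoot_iff_aeval_eq_zero hint).2 h1
  obtain ⟨σ, hσ⟩ := isConjRoot_iff_exists_algEquiv.1 h3.symm
  rw [← hσ]
  exact hx σ

end

theorem exists_mult {A K L : Type*} [CommRing A] [IsDomain A] [UniqueFactorizationMonoid A]
    [Field K] [Algebra A K] [IsFractionRing A K] [Field L] [Algebra K L] [Algebra A L]
    [IsScalarTower A K L] [FiniteDimensional K L] [IsGalois K L] {q : A} (hq : Prime q)
    {w : Valuation L ℤᵐ⁰} (hw : OverPrime w q) {z : L} (hz : z ≠ 0) (hz1 : w z ≤ 1) :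
    ∃ u : L, w u = 1 ∧ IsIntegral A u ∧ IsIntegral A (u * z) ∧ (∀ σ : L ≃ₐ[K] L, w (σ u) ≤ 1) ∧
      ∀ σ : L ≃ₐ[K] L, w (σ (u * z)) ≤ w z := by
  classical
  set s : L := algebraMap A L q with hs
  have hσs : ∀ σ : L ≃ₐ[K] L, σ s = s := by
    intro σ
    rw [hs, IsScalarTower.algebraMap_apply A K L, σ.commutes]
  have hs0 : s ≠ 0 := by
    rw [hs, IsScalarTower.algebraMap_apply A K L]
    intro h
    have h1 := (map_eq_zero_iff _ (algebraMap K L).injective).1 h
    exact hq.ne_zero ((map_eq_zero_iff _ (IsFractionRing.injective A K)).1 h1)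
  have hs1 : w s < 1 := (hw.lt_one q).2 dvd_rfl
  have hws0 : 0 < w s := zero_lt_iff.2 ((Valuation.ne_zero_iff w).2 hs0)
  have hwz : w z ≠ 0 := (Valuation.ne_zero_iff w).2 hz
  have h0 : ∃ y, 1 < w y := ⟨s⁻¹, by rw [map_inv₀]; exact (one_lt_inv₀ hws0).2 hs1⟩
  set T : Finset (L ≃ₐ[K] L) := Finset.univ.filter (fun σ => ¬ Br.InertiaAux.Dc w σ) with hT
  have hsep : ∀ τ ∈ T, ∃ y, 1 < w y ∧ (w.comap (τ : L →+* L)) y < 1 := by
    intro τ hτ
    have hτ' : ¬ Br.InertiaAux.Dc w τ := (Finset.mem_filter.1 hτ).2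
    unfold Br.InertiaAux.Dc at hτ'
    push Not at hτ'
    obtain ⟨z, hz1, hz2⟩ := hτ'
    have hz0 : z ≠ 0 := by
      rintro rfl
      rw [map_zero, map_zero] at hz2
      exact absurd hz2 (not_lt.2 zero_le)
    have hinv : w (τ z⁻¹) < 1 := by
      rw [map_inv₀, map_inv₀]
      exact inv_lt_one_of_one_lt₀ hz2
    obtain ⟨n, hn⟩ := Br.InertiaAux.pow_arch (w (τ s⁻¹)) hinv
    refine ⟨(z⁻¹) ^ n * s⁻¹, ?_, ?_⟩
    · rw [map_mul, map_pow]
      refine one_lt_mul_of_le_of_lt (one_le_pow₀ ?_) ?_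
      · rw [map_inv₀]
        exact (one_le_inv₀ (zero_lt_iff.2 ((Valuation.ne_zero_iff w).2 hz0))).2 hz1
      · rw [map_inv₀]
        exact (one_lt_inv₀ hws0).2 hs1
    · rw [Valuation.comap_apply, map_mul, map_pow, map_mul, map_pow]
      exact hn n le_rfl
  obtain ⟨e, he1, he2⟩ := Br.InertiaAux.approx w h0 T (fun τ => w.comap (τ : L →+* L)) hsep
    (fun τ => max 1 (w (τ z) * (w z)⁻¹))
  have hwe : w e = 1 := by
    have h1 : w (1 + (e - 1)) = 1 := w.map_one_add_of_lt he1
    rwa [add_sub_cancel] at h1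
  have hτe : ∀ τ ∈ T, w (τ e) < 1 := by
    intro τ hτ
    have h1 : w (τ e) * max 1 (w (τ z) * (w z)⁻¹) < 1 := he2 τ hτ
    calc w (τ e) = w (τ e) * 1 := (mul_one _).symm
      _ ≤ w (τ e) * max 1 (w (τ z) * (w z)⁻¹) := mul_le_mul_right (le_max_left _ _) _
      _ < 1 := h1
  have hτez : ∀ τ ∈ T, w (τ e) * w (τ z) ≤ w z := by
    intro τ hτ
    have h1 : w (τ e) * max 1 (w (τ z) * (w z)⁻¹) < 1 := he2 τ hτ
    have h2 : w (τ e) * (w (τ z) * (w z)⁻¹) ≤ 1 :=
      (mul_le_mul_right (le_max_right _ _) _).trans h1.le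
    calc w (τ e) * w (τ z) = (w (τ e) * (w (τ z) * (w z)⁻¹)) * w z := by
          rw [mul_assoc, mul_assoc, inv_mul_cancel₀ hwz, mul_one]
      _ ≤ 1 * w z := mul_le_mul_left h2 _
      _ = w z := one_mul _
  have hσe : ∀ σ : L ≃ₐ[K] L, w (σ e) ≤ 1 := by
    intro σ
    by_cases hσ : Br.InertiaAux.Dc w σ
    · rw [Br.InertiaAux.Dc_eq hσ, hwe]
    · exact (hτe σ (Finset.mem_filter.2 ⟨Finset.mem_univ _, hσ⟩)).le
  have hσez : ∀ σ : L ≃ₐ[K] L, w (σ (e * z)) ≤ w z := by
    intro σ
    by_cases hσ : Br.InertiaAux.Dc w σ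
    · rw [Br.InertiaAux.Dc_eq hσ, map_mul, hwe, one_mul]
    · rw [map_mul, map_mul]
      exact hτez σ (Finset.mem_filter.2 ⟨Finset.mem_univ _, hσ⟩)
  obtain ⟨a1, ha1, hi1⟩ := exists_int_mul' (K := K) hq hw hσe
  obtain ⟨a2, ha2, hi2⟩ := exists_int_mul' (K := K) hq hw (x := e * z)
    (fun σ => (hσez σ).trans hz1)
  have hA : ¬ q ∣ a1 * a2 := fun h => (hq.dvd_or_dvd h).elim ha1 ha2
  have hwA : w (algebraMap A L (a1 * a2)) = 1 := OverPrime.eq_one hw hA
  have hfix : ∀ σ : L ≃ₐ[K] L, σ (algebraMap A L (a1 * a2)) = algebraMap A L (a1 * a2) := by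
    intro σ
    rw [IsScalarTower.algebraMap_apply A K L, σ.commutes]
  refine ⟨algebraMap A L (a1 * a2) * e, ?_, ?_, ?_, fun σ => ?_, fun σ => ?_⟩
  · rw [map_mul, hwA, hwe, one_mul]
  · have h1 : algebraMap A L (a1 * a2) * e = algebraMap A L a2 * (algebraMap A L a1 * e) := by
      rw [map_mul]
      ring
    rw [h1]
    exact isIntegral_algebraMap.mul hi1
  · have h1 : algebraMap A L (a1 * a2) * e * z = algebraMap A L a1 * (algebraMap A L a2 * (e * z)) := by
      rw [map_mul]
      ring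
    rw [h1]
    exact isIntegral_algebraMap.mul hi2
  · rw [map_mul, hfix, map_mul, hwA, one_mul]
    exact hσe σ
  · rw [mul_assoc, map_mul, hfix, map_mul, hwA, one_mul]
    exact hσez σ

end Pf72953.Pur
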