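import Mathlib
import Pool.Agent.Lib.Pf72953y.Frame
import Pool.Agent.Lib.Pf72953y.Mult

/-!
Purity of the branch locus over `O_v[x]`: the determinant of the conjugates of a frame.
-/

set_option autoImplicit false
set_option linter.style.haveILetI false

open scoped WithZero
open Pf72953

namespace Pf72953.Pur

/-- Dedekind's independence of characters for a generating family of points -/
theorem det_chars_ne_zero {G Γ κ : Type*} [Fintype G] [DecidableEq G] [Monoid Γ] [Field κ]
    (χ : G → (Γ →* κ)) (hχ : Function.Injective χ) (γ : G → Γ)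
    (h : ∀ x : Γ, ∃ (c : κ) (f : G → κ), c ≠ 0 ∧ ∀ σ, c * χ σ x = ∑ j, f j * χ σ (γ j)) :
    (Matrix.of fun σ j => χ σ (γ j)).det ≠ 0 := by
  intro hdet
  obtain ⟨v, hv, hvM⟩ := Matrix.exists_vecMul_eq_zero_iff.2 hdet
  have h1 : ∀ j, ∑ σ, v σ * χ σ (γ j) = 0 := fun j => congrFun hvM j
  have h2 : ∀ x : Γ, ∑ σ, v σ * χ σ x = 0 := by
    intro x
    obtain ⟨c, f, hc, hf⟩ := h x
    have h5 : c * ∑ σ, v σ * χ σ x = 0 := ?_
    · exact (mul_eq_zero.mp h5).resolve_left hc
    rw [Finset.mul_sum]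
    calc ∑ σ, c * (v σ * χ σ x) = ∑ σ, v σ * ∑ j, f j * χ σ (γ j) :=
          Finset.sum_congr rfl fun σ _ => by rw [← hf σ]; ring
      _ = ∑ σ, ∑ j, f j * (v σ * χ σ (γ j)) :=
          Finset.sum_congr rfl fun σ _ => by
            rw [Finset.mul_sum]; exact Finset.sum_congr rfl fun j _ => by ring
      _ = ∑ j, f j * ∑ σ, v σ * χ σ (γ j) := by
          rw [Finset.sum_comm]
          exact Finset.sum_congr rfl fun j _ => by rw [Finset.mul_sum]
      _ = 0 := Finset.sum_eq_zero fun j _ => by rw [h1 j, mul_zero]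
  have h3 := (linearIndependent_monoidHom Γ κ).comp χ hχ
  rw [Fintype.linearIndependent_iff] at h3
  refine hv (funext fun σ => h3 v ?_ σ)
  funext x
  simpa [Finset.sum_apply] using h2 x

section val

variable {L : Type*} [Field L]

/-- the residue of an element of the valuation ring -/
noncomputable def rs (w : Valuation L ℤᵐ⁰) :
    w.valuationSubring →+* IsLocalRing.ResidueField w.valuationSubring :=
  IsLocalRing.residue w.valuationSubring

theorem rs_eq_zero {w : Valuation L ℤᵐ⁰} {x : w.valuationSubring} : rs w x = 0 ↔ w x < 1 := by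
  rw [rs, IsLocalRing.residue_eq_zero_iff, Valuation.mem_maximalIdeal_iff]

theorem rs_eq {w : Valuation L ℤᵐ⁰} {x y : w.valuationSubring} :
    rs w x = rs w y ↔ w ((x : L) - y) < 1 := by
  rw [← sub_eq_zero, ← map_sub, rs_eq_zero]
  rfl

/-- a valuation bound for determinants -/
theorem val_det_lt {G : Type*} [Fintype G] [DecidableEq G] {w : Valuation L ℤᵐ⁰}
    (M : Matrix G G L) (β : G → ℤᵐ⁰) (hβ : ∀ j, β j ≠ 0) (hM : ∀ i j, w (M i j) ≤ β j) (i₀ : G)
    (h0 : ∀ j, w (M i₀ j) < β j) : w M.det < ∏ j, β j := by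
  rw [Matrix.det_apply]
  have hpos : (0 : ℤᵐ⁰) < ∏ j, β j := zero_lt_iff.2 (Finset.prod_ne_zero_iff.2 fun j _ => hβ j)
  refine Valuation.map_sum_lt w hpos.ne' fun π _ => ?_
  rw [Units.smul_def, zsmul_eq_mul, map_mul]
  have h1 : w (((Equiv.Perm.sign π : ℤˣ) : ℤ) : L) = 1 := by
    rcases Int.units_eq_one_or (Equiv.Perm.sign π) with h | h <;> simp [h, Valuation.map_neg]
  rw [h1, one_mul, map_prod]
  obtain ⟨j₀, hj₀⟩ := π.surjective i₀
  rw [← Finset.mul_prod_erase Finset.univ _ (Finset.mem_univ j₀),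
    ← Finset.mul_prod_erase Finset.univ β (Finset.mem_univ j₀)]
  have h2 : ∏ x ∈ Finset.univ.erase j₀, w (M (π x) x) ≤ ∏ x ∈ Finset.univ.erase j₀, β x :=
    Finset.prod_le_prod' fun x _ => hM _ _
  have h3 : 0 < ∏ x ∈ Finset.univ.erase j₀, β x :=
    zero_lt_iff.2 (Finset.prod_ne_zero_iff.2 fun j _ => hβ j)
  calc w (M (π j₀) j₀) * ∏ x ∈ Finset.univ.erase j₀, w (M (π x) x)
      ≤ w (M (π j₀) j₀) * ∏ x ∈ Finset.univ.erase j₀, β x := mul_le_mul' le_rfl h2
    _ < β j₀ * ∏ x ∈ Finset.univ.erase j₀, β x :=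
        mul_lt_mul_of_pos_right (by rw [hj₀]; exact h0 j₀) h3

theorem val_det_le {G : Type*} [Fintype G] [DecidableEq G] {w : Valuation L ℤᵐ⁰}
    (M : Matrix G G L) (β : G → ℤᵐ⁰) (hM : ∀ i j, w (M i j) ≤ β j) : w M.det ≤ ∏ j, β j := by
  rw [Matrix.det_apply]
  refine Valuation.map_sum_le w fun π _ => ?_
  rw [Units.smul_def, zsmul_eq_mul, map_mul]
  have h1 : w (((Equiv.Perm.sign π : ℤˣ) : ℤ) : L) = 1 := by
    rcases Int.units_eq_one_or (Equiv.Perm.sign π) with h | h <;> simp [h, Valuation.map_neg]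
  rw [h1, one_mul, map_prod]
  exact Finset.prod_le_prod' fun x _ => hM _ _

end val

section tame

variable {A K L : Type*} [CommRing A] [IsDomain A] [UniqueFactorizationMonoid A]
  [Field K] [Algebra A K] [IsFractionRing A K]
  [Field L] [Algebra K L] [Algebra A L] [IsScalarTower A K L] [FiniteDimensional K L] [IsGalois K L]

omit [FiniteDimensional K L] [IsGalois K L] in
/-- in residue characteristic zero an automorphism which is trivial on the graded ring is trivial -/
theorem eq_one_of_graded [FiniteDimensional K L] {w : Valuation L ℤᵐ⁰}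
    (hn : ∀ n : ℕ, n ≠ 0 → w (n : L) = 1)
    {g : L ≃ₐ[K] L} (hg : ∀ z : L, z ≠ 0 → w (g z - z) < w z) : g = 1 := by
  have hval : ∀ z : L, w (g z) = w z := by
    intro z
    rcases eq_or_ne z 0 with rfl | hz
    · rw [map_zero]
    have h1 : g z = z + (g z - z) := by ring
    rw [h1, w.map_add_eq_of_lt_left (hg z hz)]
  ext z
  rw [AlgEquiv.one_apply]
  by_contra hne
  set y := z - g z with hy
  have hy0 : y ≠ 0 := fun h => hne (sub_eq_zero.1 h).symm
  have hpow : ∀ i : ℕ, w ((g ^ i) y - y) < w y := by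
    intro i
    induction i with
    | zero =>
      rw [pow_zero, AlgEquiv.one_apply, sub_self, map_zero]
      exact zero_lt_iff.2 ((Valuation.ne_zero_iff w).2 hy0)
    | succ i ih =>
      have h1 : (g ^ (i + 1)) y - y = (g ((g ^ i) y) - (g ^ i) y) + ((g ^ i) y - y) := by
        rw [pow_succ', AlgEquiv.mul_apply]; ring
      have h2 : w ((g ^ i) y) = w y := by
        have h3 : (g ^ i) y = y + ((g ^ i) y - y) := by ring
        rw [h3, w.map_add_eq_of_lt_left ih]
      have h4 : (g ^ i) y ≠ 0 := by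
        rw [← Valuation.ne_zero_iff w, h2, Valuation.ne_zero_iff]
        exact hy0
      rw [h1]
      refine Valuation.map_add_lt w ?_ ih
      have := hg _ h4
      rwa [h2] at this
  set n := orderOf g with hn'
  have hnpos : 0 < n := orderOf_pos g
  have hsum : ∑ i ∈ Finset.range n, (g ^ i) y = 0 := by
    have h1 : ∀ m : ℕ, ∑ i ∈ Finset.range m, (g ^ i) y = z - (g ^ m) z := by
      intro m
      induction m with
      | zero => simp
      | succ m ih =>
        rw [Finset.sum_range_succ, ih, hy, map_sub, ← AlgEquiv.mul_apply, ← pow_succ]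
        ring
    rw [h1, hn', pow_orderOf_eq_one, AlgEquiv.one_apply, sub_self]
  have h2 : ∑ i ∈ Finset.range n, (g ^ i) y =
      (n : L) * y + ∑ i ∈ Finset.range n, ((g ^ i) y - y) := by
    rw [Finset.sum_sub_distrib, Finset.sum_const, Finset.card_range, nsmul_eq_mul]
    ring
  have h3 : w (∑ i ∈ Finset.range n, ((g ^ i) y - y)) < w ((n : L) * y) := by
    rw [map_mul, hn n hnpos.ne', one_mul]
    exact Valuation.map_sum_lt w ((Valuation.ne_zero_iff w).2 hy0) fun i _ => hpow i
  rw [h2] at hsum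
  have h4 := w.map_add_eq_of_lt_left h3
  rw [hsum, map_zero, map_mul, hn n hnpos.ne', one_mul] at h4
  exact hy0 ((Valuation.zero_iff w).1 h4.symm)

/-- from integral elements to all elements -/
theorem lt_of_mult {w : Valuation L ℤᵐ⁰} {g : L ≃ₐ[K] L} {z u : L} (hz : z ≠ 0) (hu : w u = 1)
    (h1 : w (g u - u) < 1) (h2 : w (g (u * z) - u * z) < w z) : w (g z - z) < w z := by
  have hgu : w (g u) = 1 := by
    have h3 : g u = u + (g u - u) := by ring
    rw [h3, w.map_add_eq_of_lt_left (by rw [hu]; exact h1), hu]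
  have hgu0 : g u ≠ 0 := by
    rw [← Valuation.ne_zero_iff w, hgu]; exact one_ne_zero
  have h4 : g z - z = ((g (u * z) - u * z) - z * (g u - u)) / g u := by
    rw [map_mul]
    field_simp
    ring
  have hzpos : 0 < w z := zero_lt_iff.2 ((Valuation.ne_zero_iff w).2 hz)
  rw [h4, map_div₀, hgu, div_one]
  refine lt_of_le_of_lt (w.map_sub _ _) (max_lt h2 ?_)
  rw [map_mul]
  calc w z * w (g u - u) < w z * 1 := mul_lt_mul_of_pos_left h1 hzpos
    _ = w z := mul_one _

end tame

section core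

variable {A K L : Type*} [CommRing A] [IsDomain A] [UniqueFactorizationMonoid A]
  [Field K] [Algebra A K] [IsFractionRing A K]
  [Field L] [Algebra K L] [Algebra A L] [IsScalarTower A K L] [FiniteDimensional K L] [IsGalois K L]
  [DecidableEq (L ≃ₐ[K] L)]

/-- Dedekind at a prime `q` at which the inertia groups are trivial: the determinant of the conjugates of a family which spans
the integral closure up to `a₀` is a unit -/
theorem det_unit {q : A} (hq : Prime q) {w : Valuation L ℤᵐ⁰} (hw : OverPrime w q)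
    (hI : ∀ g : L ≃ₐ[K] L, (∀ z, w z ≤ 1 → w (g z - z) < 1) → g = 1)
    {s : (L ≃ₐ[K] L) → L} (hs : ∀ j, IsIntegral A (s j)) {a₀ : A} (ha₀ : ¬ q ∣ a₀)
    (hgen : ∀ b : L, IsIntegral A b → ∃ f : (L ≃ₐ[K] L) → A, a₀ • b = ∑ j, f j • s j) :
    ¬ w (Matrix.of fun (σ j : L ≃ₐ[K] L) => σ (s j)).det < 1 := by
  intro hlt
  set O := w.valuationSubring with hO
  have hint : ∀ (σ : L ≃ₐ[K] L) {b : L}, IsIntegral A b → w (σ b) ≤ 1 := fun σ b hb =>
    le_one_of_isIntegral hw.le_one (hb.map (σ.restrictScalars A))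
  -- the characters
  let χ : (L ≃ₐ[K] L) → (integralClosure A L →* IsLocalRing.ResidueField O) := fun σ =>
    ((rs w : O →* IsLocalRing.ResidueField O)).comp
      { toFun := fun b => ⟨σ b, hint σ b.2⟩
        map_one' := by ext; simp
        map_mul' := fun a b => by ext; simp }
  have hχ : ∀ σ (b : integralClosure A L), χ σ b = rs w ⟨σ b, hint σ b.2⟩ := fun _ _ => rfl
  have hinj : Function.Injective χ := by
    intro σ τ h
    have h1 : ∀ b : L, IsIntegral A b → w (σ b - τ b) < 1 := by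
      intro b hb
      have h2 := DFunLike.congr_fun h (⟨b, hb⟩ : integralClosure A L)
      rw [hχ, hχ, rs_eq] at h2
      exact h2
    have h2 : ∀ b : L, IsIntegral A b → w ((σ * τ⁻¹) b - b) < 1 := by
      intro b hb
      have h3 := h1 (τ⁻¹ b) (hb.map (τ⁻¹.restrictScalars A))
      have h4 : τ (τ⁻¹ b) = b := by
        rw [← AlgEquiv.mul_apply, mul_inv_cancel, AlgEquiv.one_apply]
      rwa [h4] at h3
    have h5 : σ * τ⁻¹ = 1 := by
      refine hI _ fun z hz => ?_
      rcases eq_or_ne z 0 with rfl | hz0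
      · simp
      obtain ⟨u, hu, hui, huz, -, -⟩ := exists_mult (K := K) hq hw hz0 hz
      -- scaled version
      have hgu : w ((σ * τ⁻¹) u) = 1 := by
        have h3 : (σ * τ⁻¹) u = u + ((σ * τ⁻¹) u - u) := by ring
        rw [h3, w.map_add_eq_of_lt_left (by rw [hu]; exact h2 u hui), hu]
      have hgu0 : (σ * τ⁻¹) u ≠ 0 := by
        rw [← Valuation.ne_zero_iff w, hgu]; exact one_ne_zero
      have h4 : (σ * τ⁻¹) z - z = (((σ * τ⁻¹) (u * z) - u * z) - z * ((σ * τ⁻¹) u - u)) /
          (σ * τ⁻¹) u := by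
        rw [map_mul]
        field_simp
        ring
      rw [h4, map_div₀, hgu, div_one]
      refine lt_of_le_of_lt (w.map_sub _ _) (max_lt (h2 _ huz) ?_)
      rw [map_mul]
      exact (mul_le_mul' hz le_rfl).trans_lt (by rw [one_mul]; exact h2 u hui)
    rwa [mul_inv_eq_one] at h5
  have hres : ∀ f : A, ∃ x : O, (x : L) = algebraMap A L f := fun f => ⟨⟨_, hw.le_one f⟩, rfl⟩
  refine det_chars_ne_zero χ hinj (fun j => ⟨s j, hs j⟩) (fun x => ?_) ?_
  · obtain ⟨f, hf⟩ := hgen x.1 x.2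
    refine ⟨rs w ⟨algebraMap A L a₀, hw.le_one a₀⟩, fun j => rs w ⟨algebraMap A L (f j), hw.le_one _⟩,
      ?_, fun σ => ?_⟩
    · rw [Ne, rs_eq_zero]
      exact fun h => ha₀ ((hw.lt_one a₀).1 h)
    · rw [hχ, ← map_mul]
      simp only [hχ, ← map_mul, ← map_sum]
      congr 1
      apply Subtype.ext
      have h1 := congrArg σ hf
      rw [Algebra.smul_def, map_mul, sigma_A, map_sum] at h1
      simp only [Algebra.smul_def, map_mul, sigma_A] at h1
      rw [AddSubmonoidClass.coe_finsetSum]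
      exact h1
  · have h1 : (Matrix.of fun σ j => χ σ (⟨s j, hs j⟩ : integralClosure A L)) =
        (rs w).mapMatrix (Matrix.of fun (σ j : L ≃ₐ[K] L) => (⟨σ (s j), hint σ (hs j)⟩ : O)) := by
      ext σ j
      rfl
    rw [h1, ← RingHom.map_det, rs_eq_zero]
    have h2 : ((Matrix.of fun (σ j : L ≃ₐ[K] L) => (⟨σ (s j), hint σ (hs j)⟩ : O)).det : L) =
        (Matrix.of fun (σ j : L ≃ₐ[K] L) => σ (s j)).det := by
      have h3 := RingHom.map_det O.subtype
        (Matrix.of fun (σ j : L ≃ₐ[K] L) => (⟨σ (s j), hint σ (hs j)⟩ : O))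
      exact h3
    rw [h2]
    exact hlt

end core

end Pf72953.Pur
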