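import Mathlib
import Pool.Agent.Lib.Pf72953y.Det
import Pool.Agent.Lib.Pf72953.Orb

/-!
Purity of the branch locus over `O_v[x]`: the core.
-/

set_option autoImplicit false
set_option linter.style.haveILetI false
set_option linter.unusedSectionVars false

open scoped WithZero
open Pf72953

namespace Pf72953.Pur

section det

variable {A K L : Type*} [CommRing A] [IsDomain A] [UniqueFactorizationMonoid A]
  [Field K] [Algebra A K] [IsFractionRing A K]
  [Field L] [Algebra K L] [Algebra A L] [IsScalarTower A K L] [FiniteDimensional K L] [IsGalois K L]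
  [DecidableEq (L ≃ₐ[K] L)]

/-- (D2) the square of the determinant of the conjugates lies in `A` -/
theorem det_sq_mem {s : (L ≃ₐ[K] L) → L} (hs : ∀ j, IsIntegral A (s j)) :
    ∃ d : A, algebraMap A L d = (Matrix.of fun (σ j : L ≃ₐ[K] L) => σ (s j)).det ^ 2 := by
  set M : Matrix (L ≃ₐ[K] L) (L ≃ₐ[K] L) L := Matrix.of fun (σ j : L ≃ₐ[K] L) => σ (s j) with hM
  have hfix : ∀ τ : L ≃ₐ[K] L, τ (M.det ^ 2) = M.det ^ 2 := by
    intro τ
    have h1 : (τ : L →+* L) M.det = ((Equiv.Perm.sign (Equiv.mulLeft τ) : ℤˣ) : ℤ) * M.det := by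
      rw [RingHom.map_det, ← Matrix.det_permute]
      congr 1
    have h2 : τ M.det = ((Equiv.Perm.sign (Equiv.mulLeft τ) : ℤˣ) : ℤ) * M.det := h1
    rw [map_pow, h2, mul_pow]
    rcases Int.units_eq_one_or (Equiv.Perm.sign (Equiv.mulLeft τ)) with h | h <;> simp [h]
  obtain ⟨c, hc⟩ := (IsGalois.mem_range_algebraMap_iff_fixed (F := K) (E := L) _).2 hfix
  have hint : IsIntegral A (M.det ^ 2) := by
    refine IsIntegral.pow ?_ 2
    rw [Matrix.det_apply]
    refine IsIntegral.sum _ fun π _ => ?_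
    rw [Units.smul_def, zsmul_eq_mul]
    refine IsIntegral.mul ?_ (IsIntegral.prod _ fun j _ => (hs j).map ((π j).restrictScalars A))
    have h1 : (((Equiv.Perm.sign π : ℤˣ) : ℤ) : L) =
        algebraMap A L (((Equiv.Perm.sign π : ℤˣ) : ℤ) : A) := by rw [map_intCast]
    rw [h1]
    exact isIntegral_algebraMap
  rw [← hc] at hint
  obtain ⟨d, hd⟩ := IsIntegrallyClosed.isIntegral_iff.1
    ((isIntegral_algebraMap_iff (algebraMap K L).injective).1 hint)
  refine ⟨d, ?_⟩
  rw [IsScalarTower.algebraMap_apply A K L, hd, hc]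

variable {p : A} {w : Valuation L ℤᵐ⁰} {r : ℕ} {t : L}

/-- (D1) the determinant of the conjugates has the expected value -/
theorem not_val_det_lt (hp : Prime p) (hw : OverPrime w p)
    (hn : ∀ n : ℕ, n ≠ 0 → w (n : L) = 1) (ht : IsUnif w t)
    {s : (L ≃ₐ[K] L) → L} {α : (L ≃ₐ[K] L) → ℕ}
    (hs : ∀ j, s j ∈ Mf A (K := K) w (w t) hw.le_one (α j)) {a₀ : A} (ha₀ : p ∣ a₀ - 1)
    (hgen : ∀ b : L, IsIntegral A b → ∃ f : (L ≃ₐ[K] L) → A, a₀ • b = ∑ j, f j • s j)
    (horth : ∀ (a : ℕ) (f : (L ≃ₐ[K] L) → A),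
      ∑ j, f j • s j ∈ Mf A (K := K) w (w t) hw.le_one a →
        ∀ j, w (algebraMap A L (f j)) * w t ^ α j ≤ w t ^ a) :
    ¬ w (Matrix.of fun (σ j : L ≃ₐ[K] L) => σ (s j)).det < ∏ j, w t ^ α j := by
  intro hlt
  have ht0 : w t ≠ 0 := (Valuation.ne_zero_iff w).2 ht.ne_zero
  have htpos : ∀ a : ℕ, 0 < w t ^ a := fun a => zero_lt_iff.2 (pow_ne_zero _ ht0)
  have hdiv : ∀ {y : L} {a : ℕ}, w y ≤ w t ^ a → w (y / t ^ a) ≤ 1 := by
    intro y a h
    rw [map_div₀, map_pow]
    exact (div_le_one₀ (htpos a)).2 h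
  have hdiv' : ∀ {y : L} {a : ℕ}, w (y / t ^ a) < 1 → w y < w t ^ a := by
    intro y a h
    rw [map_div₀, map_pow] at h
    exact (div_lt_one₀ (htpos a)).1 h
  -- the monoid of the pairs
  let Γ : Submonoid (L × Multiplicative ℕ) :=
    { carrier := {x | x.1 ∈ Mf A (K := K) w (w t) hw.le_one (Multiplicative.toAdd x.2)}
      one_mem' := ⟨isIntegral_one, fun σ => by simp⟩
      mul_mem' := fun {x y} hx hy => ⟨hx.1.mul hy.1, fun σ => by
        have h1 := hx.2 σ
        have h2 := hy.2 σ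
        rw [Prod.fst_mul, Prod.snd_mul, toAdd_mul, map_mul, map_mul, pow_add]
        exact mul_le_mul' h1 h2⟩ }
  have hΓ : ∀ (x : Γ) (σ : L ≃ₐ[K] L),
      w (σ (x : L × Multiplicative ℕ).1 / t ^ Multiplicative.toAdd (x : L × Multiplicative ℕ).2) ≤ 1 :=
    fun x σ => hdiv (x.2.2 σ)
  let χ : (L ≃ₐ[K] L) → (Γ →* IsLocalRing.ResidueField w.valuationSubring) := fun σ =>
    ((rs w : w.valuationSubring →* IsLocalRing.ResidueField w.valuationSubring)).comp
      { toFun := fun x => ⟨σ (x : L × Multiplicative ℕ).1 /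
          t ^ Multiplicative.toAdd (x : L × Multiplicative ℕ).2, hΓ x σ⟩
        map_one' := by ext; simp
        map_mul' := fun x y => by
          ext
          simp only [Submonoid.coe_mul, Prod.fst_mul, Prod.snd_mul, toAdd_mul, map_mul, pow_add]
          show _ = _ / _ * (_ / _)
          rw [div_mul_div_comm] }
  have hχ : ∀ σ (x : Γ), χ σ x = rs w ⟨σ (x : L × Multiplicative ℕ).1 /
      t ^ Multiplicative.toAdd (x : L × Multiplicative ℕ).2, hΓ x σ⟩ := fun _ _ => rfl
  have hinj : Function.Injective χ := by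
    intro σ τ h
    have h1 : ∀ (a : ℕ) (b : L), b ∈ Mf A (K := K) w (w t) hw.le_one a →
        w (σ b - τ b) < w t ^ a := by
      intro a b hb
      have h2 := DFunLike.congr_fun h (⟨(b, Multiplicative.ofAdd a), hb⟩ : Γ)
      rw [hχ, hχ, rs_eq] at h2
      refine hdiv' ?_
      rw [sub_div]
      exact h2
    have h2 : ∀ (a : ℕ) (b : L), b ∈ Mf A (K := K) w (w t) hw.le_one a →
        w ((σ * τ⁻¹) b - b) < w t ^ a := by
      intro a b hb
      have h3 := h1 a (τ⁻¹ b) ⟨hb.1.map (τ⁻¹.restrictScalars A), fun σ' => by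
        have := hb.2 (σ' * τ⁻¹)
        rwa [AlgEquiv.mul_apply] at this⟩
      have h4 : τ (τ⁻¹ b) = b := by
        rw [← AlgEquiv.mul_apply, mul_inv_cancel, AlgEquiv.one_apply]
      rwa [h4] at h3
    have h5 : σ * τ⁻¹ = 1 := by
      refine eq_one_of_graded (w := w) hn fun z hz => ?_
      -- the case of the elements of the valuation ring
      have key : ∀ z : L, z ≠ 0 → w z ≤ 1 → w ((σ * τ⁻¹) z - z) < w z := by
        intro z hz hz1
        obtain ⟨a, ha⟩ := ht.exists_pow hz hz1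
        obtain ⟨u, hu, hui, huz, hu1, huz1⟩ := exists_mult (K := K) hp hw hz hz1
        refine lt_of_mult hz hu ?_ ?_
        · have h6 := h2 0 u ⟨hui, fun σ' => by rw [pow_zero]; exact hu1 σ'⟩
          rwa [pow_zero] at h6
        · have h6 := h2 a (u * z) ⟨huz, fun σ' => by rw [← ha]; exact huz1 σ'⟩
          rwa [← ha] at h6
      rcases le_total (w z) 1 with h6 | h6
      · exact key z hz h6
      · -- scale by a power of `p`
        have hpL : algebraMap A L p ≠ 0 := fun h => hp.ne_zero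
          (algebraMap_inj A K L (by rw [h, map_zero]))
        have hp1 : w (algebraMap A L p) < 1 := (hw.lt_one p).2 dvd_rfl
        have hwz : w z⁻¹ ≤ 1 := by
          rw [map_inv₀]
          exact inv_le_one_of_one_le₀ h6
        obtain ⟨e, he⟩ := ht.exists_pow (inv_ne_zero hz) hwz
        have hpt : w (algebraMap A L p) ≤ w t := ht.le _ hp1
        have h7 : w (algebraMap A L p ^ e * z) ≤ 1 := by
          rw [map_mul, map_pow]
          calc w (algebraMap A L p) ^ e * w z ≤ w t ^ e * w z :=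
                mul_le_mul' (pow_le_pow_left' hpt e) le_rfl
            _ = 1 := by rw [← he, ← map_mul, inv_mul_cancel₀ hz, map_one]
        have h8 := key _ (mul_ne_zero (pow_ne_zero e hpL) hz) h7
        have h9 : (σ * τ⁻¹) (algebraMap A L p ^ e * z) - algebraMap A L p ^ e * z =
            algebraMap A L p ^ e * ((σ * τ⁻¹) z - z) := by
          rw [map_mul, map_pow, sigma_A]; ring
        rw [h9, map_mul, map_mul] at h8
        exact lt_of_mul_lt_mul_left' h8
    rwa [mul_inv_eq_one] at h5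
  have ha₀1 : w (algebraMap A L a₀) = 1 := by
    have h1 : w (algebraMap A L (a₀ - 1)) < 1 := (hw.lt_one _).2 ha₀
    have h2 : algebraMap A L a₀ = 1 + algebraMap A L (a₀ - 1) := by
      rw [map_sub, map_one]; ring
    rw [h2, w.map_add_eq_of_lt_left (by rw [map_one]; exact h1), map_one]
  refine det_chars_ne_zero χ hinj (fun j => ⟨(s j, Multiplicative.ofAdd (α j)), hs j⟩)
    (fun x => ?_) ?_
  · obtain ⟨⟨b, a⟩, hx⟩ := x
    obtain ⟨a, rfl⟩ := Multiplicative.ofAdd.surjective a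
    have hx' : b ∈ Mf A (K := K) w (w t) hw.le_one a := hx
    obtain ⟨f, hf⟩ := hgen b hx'.1
    have h1 := horth a f (by rw [← hf]; exact Submodule.smul_mem _ _ hx')
    have h2 : ∀ j, w (algebraMap A L (f j) * t ^ α j / t ^ a) ≤ 1 := fun j =>
      hdiv (by rw [map_mul, map_pow]; exact h1 j)
    refine ⟨rs w ⟨algebraMap A L a₀, hw.le_one a₀⟩, fun j => rs w ⟨_, h2 j⟩, ?_, fun σ => ?_⟩
    · rw [Ne, rs_eq_zero]
      exact fun h => h.ne ha₀1
    · simp only [hχ, ← map_mul, ← map_sum]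
      congr 1
      apply Subtype.ext
      have h3 := congrArg σ hf
      rw [Algebra.smul_def, map_mul, sigma_A, map_sum] at h3
      simp only [Algebra.smul_def, map_mul, sigma_A] at h3
      rw [AddSubmonoidClass.coe_finsetSum]
      show algebraMap A L a₀ * (σ b / t ^ a) =
        ∑ j, algebraMap A L (f j) * t ^ α j / t ^ a * (σ (s j) / t ^ α j)
      rw [← mul_div_assoc, h3, Finset.sum_div]
      refine Finset.sum_congr rfl fun j _ => ?_
      have h4 : t ^ α j ≠ 0 := pow_ne_zero _ ht.ne_zero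
      field_simp
  · have h1 : (Matrix.of fun σ j => χ σ (⟨(s j, Multiplicative.ofAdd (α j)), hs j⟩ : Γ)) =
        (rs w).mapMatrix (Matrix.of fun (σ j : L ≃ₐ[K] L) =>
          (⟨σ (s j) / t ^ α j, hdiv ((hs j).2 σ)⟩ : w.valuationSubring)) := by
      ext σ j
      rfl
    rw [h1, ← RingHom.map_det, rs_eq_zero]
    have h2 : ((Matrix.of fun (σ j : L ≃ₐ[K] L) =>
          (⟨σ (s j) / t ^ α j, hdiv ((hs j).2 σ)⟩ : w.valuationSubring)).det : L) =
        (Matrix.of fun (σ j : L ≃ₐ[K] L) => σ (s j) / t ^ α j).det := by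
      have h3 := RingHom.map_det w.valuationSubring.subtype
        (Matrix.of fun (σ j : L ≃ₐ[K] L) =>
          (⟨σ (s j) / t ^ α j, hdiv ((hs j).2 σ)⟩ : w.valuationSubring))
      exact h3
    have h4 : (Matrix.of fun (σ j : L ≃ₐ[K] L) => σ (s j) / t ^ α j).det =
        (∏ j, (t ^ α j)⁻¹) * (Matrix.of fun (σ j : L ≃ₐ[K] L) => σ (s j)).det := by
      rw [← Matrix.det_mul_row]
      congr 1
      ext σ j
      simp only [Matrix.of_apply]
      rw [div_eq_inv_mul]
    rw [h2, h4, map_mul, map_prod]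
    have h5 : ∏ j, w (t ^ α j)⁻¹ = (∏ j, w t ^ α j)⁻¹ := by
      rw [← Finset.prod_inv_distrib]
      exact Finset.prod_congr rfl fun j _ => by rw [map_inv₀, map_pow]
    have h6 : (0 : ℤᵐ⁰) < ∏ j, w t ^ α j :=
      zero_lt_iff.2 (Finset.prod_ne_zero_iff.2 fun j _ => (htpos _).ne')
    rw [h5, mul_comm, ← div_eq_mul_inv]
    exact (div_lt_one₀ h6).2 hlt

/-- the values of the elements of the filtration at another valuation over the same ring -/
theorem val_le_of_mem (hp : Prime p) (hw : OverPrime w p) (hr0 : 0 < r) {ρ : ℤᵐ⁰}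
    (hρ : ρ ≤ 1) (hr : ρ ^ r = w (algebraMap A L p)) {w₁ : Valuation L ℤᵐ⁰}
    (hw₁ : ∀ f : A, w₁ (algebraMap A L f) ≤ 1)
    (hpp : w₁ (algebraMap A L p) = w (algebraMap A L p)) {a : ℕ} {b : L}
    (hb : b ∈ Mf A (K := K) w ρ hw.le_one a) : w₁ b ≤ ρ ^ a := by
  have hpL : algebraMap A L p ≠ 0 := fun h => hp.ne_zero
    (algebraMap_inj A K L (by rw [h, map_zero]))
  have hp0 : 0 < w (algebraMap A L p) :=
    zero_lt_iff.2 (val_q_ne_zero (algebraMap_inj A K L) hp w)
  have hint : ∀ m ≤ a, IsIntegral A (b ^ r / algebraMap A L p ^ m) := by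
    intro m
    induction m with
    | zero =>
      intro _
      rw [pow_zero, div_one]
      exact hb.1.pow r
    | succ m ih =>
      intro hm
      refine isIntegral_of_mul (K := K) hp hw ?_ fun σ => ?_
      · have h1 : algebraMap A L p * (b ^ r / algebraMap A L p ^ (m + 1)) =
            b ^ r / algebraMap A L p ^ m := by
          rw [pow_succ']
          field_simp
        rw [h1]
        exact ih (by omega)
      · rw [map_div₀, map_pow, map_pow, sigma_A, map_div₀, map_pow, map_pow,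
          div_le_one₀ (pow_pos hp0 _), ← hr, ← pow_mul]
        calc w (σ b) ^ r ≤ (ρ ^ a) ^ r := pow_le_pow_left' (hb.2 σ) r
          _ = ρ ^ (r * a) := by rw [← pow_mul, mul_comm]
          _ ≤ ρ ^ (r * (m + 1)) := pow_le_pow_right_of_le_one' hρ (Nat.mul_le_mul_left r hm)
  have h1 := le_one_of_isIntegral hw₁ (hint a le_rfl)
  rw [map_div₀, map_pow, map_pow, hpp, div_le_one₀ (pow_pos hp0 _), ← hr, ← pow_mul, mul_comm,
    pow_mul] at h1
  exact (pow_le_pow_iff_left₀ zero_le zero_le hr0.ne').1 h1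

end det

section purity

variable {A K L : Type*} [CommRing A] [IsDomain A] [UniqueFactorizationMonoid A]
  [IsNoetherianRing A]
  [Field K] [Algebra A K] [IsFractionRing A K]
  [Field L] [Algebra K L] [Algebra A L] [IsScalarTower A K L] [FiniteDimensional K L] [IsGalois K L]

/-- purity of the branch locus: if the inertia groups over the primes `q ≠ p` (at which `w₁ q < 1`) are trivial, an automorphism
which is inertial for `w₁`, with the value group of `w₀`, is trivial -/
theorem purity {p : A} [IsPrincipalIdealRing (A ⧸ Ideal.span {p})] (hp : Prime p)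
    {w₀ : Valuation L ℤᵐ⁰} (hw₀ : OverPrime w₀ p) (hn : ∀ n : ℕ, n ≠ 0 → w₀ (n : L) = 1)
    {w₁ : Valuation L ℤᵐ⁰} (hw₁ : ∀ f : A, w₁ (algebraMap A L f) ≤ 1)
    (hpp : w₁ (algebraMap A L p) = w₀ (algebraMap A L p))
    (Hq : ∀ q : A, Prime q → ¬ q ∣ p → w₁ (algebraMap A L q) < 1 →
      ∃ w' : Valuation L ℤᵐ⁰, OverPrime w' q ∧
        ∀ g : L ≃ₐ[K] L, (∀ z, w' z ≤ 1 → w' (g z - z) < 1) → g = 1)
    {g : L ≃ₐ[K] L} (hg : ∀ t b : L, t ≠ 0 → w₁ b ≤ w₀ t → w₁ (g b - b) < w₀ t) : g = 1 := by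
  classical
  by_contra hg1
  have hinj := algebraMap_inj A K L
  have hpL : algebraMap A L p ≠ 0 := fun h => hp.ne_zero (hinj (by rw [h, map_zero]))
  have hp0 : w₀ (algebraMap A L p) ≠ 0 := (Valuation.ne_zero_iff w₀).2 hpL
  have hp1 : w₀ (algebraMap A L p) < 1 := (hw₀.lt_one p).2 dvd_rfl
  obtain ⟨t, ht⟩ := exists_unif w₀ ⟨algebraMap A L p, hpL, hp1.ne⟩
  have ht0 : w₀ t ≠ 0 := (Valuation.ne_zero_iff w₀).2 ht.ne_zero
  obtain ⟨r, hr⟩ := ht.exists_pow hpL hp1.le
  have hr0 : 0 < r := by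
    rcases Nat.eq_zero_or_pos r with h | h
    · rw [h, pow_zero] at hr
      exact absurd hr hp1.ne
    · exact h
  obtain ⟨s, α, a₀, hs, ha₀, hgen, horth⟩ :=
    exists_frame (A := A) (K := K) (L := L) hp hw₀ ht.lt_one ht0 hr0 hr.symm
  set M : Matrix (L ≃ₐ[K] L) (L ≃ₐ[K] L) L := Matrix.of fun (σ j : L ≃ₐ[K] L) => σ (s j) with hM
  -- the value at `w₀`
  have hD1 : ∏ j, w₀ t ^ α j ≤ w₀ M.det :=
    not_lt.1 (not_val_det_lt hp hw₀ hn ht hs ha₀ hgen horth)
  have hpos : (0 : ℤᵐ⁰) < ∏ j, w₀ t ^ α j :=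
    zero_lt_iff.2 (Finset.prod_ne_zero_iff.2 fun j _ => pow_ne_zero _ ht0)
  -- the value at `w₁`
  have hle : ∀ σ j : L ≃ₐ[K] L, w₁ (σ (s j)) ≤ w₀ t ^ α j := by
    intro σ j
    refine val_le_of_mem (K := K) hp hw₀ hr0 ht.lt_one.le hr.symm hw₁ hpp
      ⟨(hs j).1.map (σ.restrictScalars A), fun σ' => ?_⟩
    exact (hs j).2 (σ' * σ)
  have hD3 : w₁ M.det < ∏ j, w₀ t ^ α j := by
    rw [← Matrix.det_updateRow_add_smul_self M hg1 (-1)]
    refine val_det_lt _ _ (fun j => pow_ne_zero _ ht0) (fun i j => ?_) g fun j => ?_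
    · by_cases hi : i = g
      · subst hi
        rw [Matrix.updateRow_self]
        have h1 : (M i + (-1 : L) • M 1) j = i (s j) - s j := by
          simp [hM, sub_eq_add_neg]
        rw [h1]
        refine (w₁.map_sub _ _).trans (max_le (hle i j) ?_)
        exact hle 1 j
      · rw [Matrix.updateRow_ne hi]
        exact hle i j
    · rw [Matrix.updateRow_self]
      have h1 : (M g + (-1 : L) • M 1) j = g (s j) - s j := by
        simp [hM, sub_eq_add_neg]
      rw [h1]
      have h2 := hg (t ^ α j) (s j) (pow_ne_zero _ ht.ne_zero) (by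
        rw [map_pow]; exact hle 1 j)
      rwa [map_pow] at h2
  -- the discriminant
  obtain ⟨d, hd⟩ := det_sq_mem (A := A) (K := K) (s := s) fun j => (hs j).1
  rw [← hM] at hd
  have hdet0 : M.det ≠ 0 := by
    rw [← Valuation.ne_zero_iff w₀]
    exact (hpos.trans_le hD1).ne'
  have hd0 : d ≠ 0 := by
    rintro rfl
    rw [map_zero] at hd
    exact pow_ne_zero 2 hdet0 hd.symm
  obtain ⟨m, δ, hpδ, hdδ, hm⟩ := exists_val hp hw₀ hd0
  have hδ1 : w₁ (algebraMap A L δ) < 1 := by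
    have h1 : w₁ (algebraMap A L d) < w₀ (algebraMap A L d) := by
      rw [hd, map_pow, map_pow]
      exact pow_lt_pow_left₀ (hD3.trans_le hD1) zero_le two_ne_zero
    rw [hm, hdδ, map_mul, map_pow, map_mul, map_pow, hpp] at h1
    have h2 : (0 : ℤᵐ⁰) < w₀ (algebraMap A L p) ^ m := zero_lt_iff.2 (pow_ne_zero _ hp0)
    have h3 : w₀ (algebraMap A L p) ^ m * w₁ (algebraMap A L δ) <
        w₀ (algebraMap A L p) ^ m * 1 := by rwa [mul_one]
    exact (mul_lt_mul_iff_of_pos_left h2).1 h3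
  have hδ0 : δ ≠ 0 := by
    rintro rfl
    exact hpδ (dvd_zero p)
  -- a prime factor
  obtain ⟨q, hq, hqδ, hq1⟩ : ∃ q : A, Prime q ∧ q ∣ δ ∧ w₁ (algebraMap A L q) < 1 := by
    obtain ⟨F, hF, hFδ⟩ := UniqueFactorizationMonoid.exists_prime_factors δ hδ0
    by_contra hcon
    push Not at hcon
    have h1 : ∀ b ∈ F, w₁ (algebraMap A L b) = 1 := fun b hb =>
      le_antisymm (hw₁ b) (hcon b (hF b hb) ((Multiset.dvd_prod hb).trans hFδ.dvd))
    have h2 : w₁ (algebraMap A L F.prod) = 1 := by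
      rw [map_multiset_prod, map_multiset_prod]
      refine Multiset.prod_eq_one fun x hx => ?_
      rw [Multiset.mem_map] at hx
      obtain ⟨y, hy, rfl⟩ := hx
      rw [Multiset.mem_map] at hy
      obtain ⟨b, hb, rfl⟩ := hy
      exact h1 b hb
    obtain ⟨c, hc⟩ := hFδ
    have h3 : w₁ (algebraMap A L (c : A)) = 1 := by
      refine le_antisymm (hw₁ _) ?_
      have h4 : w₁ (algebraMap A L (c : A)) * w₁ (algebraMap A L ((c⁻¹ : Aˣ) : A)) = 1 := by
        rw [← map_mul, ← map_mul, Units.mul_inv, map_one, map_one]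
      rw [← h4]
      exact mul_le_of_le_one_right' (hw₁ _)
    rw [← hc, map_mul, map_mul, h2, h3, one_mul] at hδ1
    exact lt_irrefl _ hδ1
  have hqp : ¬ q ∣ p := by
    intro h
    have h1 : Associated q p := (hq.dvd_prime_iff_associated hp).1 h
    exact hpδ (h1.symm.dvd.trans hqδ)
  have hqa : ¬ q ∣ a₀ := by
    intro h
    have h1 : w₁ (algebraMap A L (a₀ - 1)) < 1 := by
      obtain ⟨c, hc⟩ := ha₀
      rw [hc, map_mul, map_mul, hpp]
      exact (mul_le_of_le_one_right' (hw₁ c)).trans_lt hp1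
    have h2 : algebraMap A L a₀ = 1 + algebraMap A L (a₀ - 1) := by
      rw [map_sub, map_one]; ring
    have h3 : w₁ (algebraMap A L a₀) = 1 := by
      rw [h2, w₁.map_add_eq_of_lt_left (by rw [map_one]; exact h1), map_one]
    obtain ⟨c, hc⟩ := h
    rw [hc, map_mul, map_mul] at h3
    exact absurd h3 ((mul_le_of_le_one_right' (hw₁ c)).trans_lt hq1).ne
  obtain ⟨w', hw', hI⟩ := Hq q hq hqp hq1
  refine det_unit hq hw' hI (fun j => (hs j).1) hqa hgen ?_
  rw [← hM]
  by_contra h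
  rw [not_lt] at h
  have h1 : w' (algebraMap A L d) < 1 :=
    (hw'.lt_one d).2 (by rw [hdδ]; exact Dvd.dvd.mul_left hqδ _)
  rw [hd, map_pow] at h1
  exact absurd h1 (not_lt.2 (one_le_pow₀ h))

end purity

end Pf72953.Pur
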