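import Mathlib
import Pool.Agent.Lib.Pf72953y.Pur
import Pool.Agent.Lib.Pf72953y.Ring

/-!
Purity of the branch locus over `O_v[x]`: the case of the ring `O_v[x]`.
-/

set_option autoImplicit false
set_option linter.style.haveILetI false
set_option linter.unusedSectionVars false

open scoped WithZero Polynomial
open Pf72953

namespace Pf72953.Pur

section spec

variable {P K L : Type*} [Field P] [Field K] [Field L] [Algebra P K]
  [Algebra K L] [Algebra P L] [IsScalarTower P K L]

/-- a valuation `≤ 1` at the coefficients and at `x` -/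
theorem aeval_le_one {u : Valuation L ℤᵐ⁰} {x : K} (hx : u (algebraMap K L x) ≤ 1) {p : P[X]}
    (hp : ∀ n, u (algebraMap P L (p.coeff n)) ≤ 1) :
    u (algebraMap K L (Polynomial.aeval x p)) ≤ 1 := by
  rw [Polynomial.aeval_eq_sum_range, map_sum]
  refine Valuation.map_sum_le u fun i _ => ?_
  rw [Algebra.smul_def, map_mul, map_pow, ← IsScalarTower.algebraMap_apply, map_mul, map_pow]
  exact mul_le_one' (hp i) (pow_le_one' hx i)

variable [FiniteDimensional K L] [IsGalois K L]

theorem claimZ_aux {x : K} (hx : Transcendental P x)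
    (hK : ∀ z : K, z ∈ IntermediateField.adjoin P {x}) {w₀ w₁ : Valuation L ℤᵐ⁰}
    (h01 : ∀ a : P, w₁ (algebraMap P L a) = w₀ (algebraMap P L a))
    (hn : ∀ n : ℕ, n ≠ 0 → w₀ (n : L) = 1)
    (hG : ∀ p : P[X], (∀ n, w₀ (algebraMap P L (p.coeff n)) ≤ 1) →
      (∃ n, w₀ (algebraMap P L (p.coeff n)) = 1) → w₀ (algebraMap K L (Polynomial.aeval x p)) = 1)
    (hc : w₁ (algebraMap K L x) ≤ 1)
    (hU : ∀ u : Valuation L ℤᵐ⁰, (∀ a : P, a ≠ 0 → u (algebraMap P L a) = 1) →
      u (algebraMap K L x) ≤ 1 →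
      (∀ p : P[X], (∀ n, w₀ (algebraMap P L (p.coeff n)) ≤ 1) →
        u (algebraMap K L (Polynomial.aeval x p)) < 1 →
        w₁ (algebraMap K L (Polynomial.aeval x p)) < 1) →
      ∀ g : L ≃ₐ[K] L, (∀ z, u z ≤ 1 → u (g z - z) < 1) → g = 1)
    {g : L ≃ₐ[K] L} (hg : ∀ t b : L, t ≠ 0 → w₁ b ≤ w₀ t → w₁ (g b - b) < w₀ t) : g = 1 := by
  classical
  set v : Valuation P ℤᵐ⁰ := w₀.comap (algebraMap P L) with hv
  have hva : ∀ a : P, v a = w₀ (algebraMap P L a) := fun _ => rfl
  by_cases hnt : ∃ a : P, a ≠ 0 ∧ v a ≠ 1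
  swap
  · -- the trivial case
    push Not at hnt
    refine hU w₁ (fun a ha => ?_) hc (fun p _ h => h) g fun z hz => ?_
    · rw [h01, ← hva]; exact hnt a ha
    · have := hg 1 z one_ne_zero (by rw [map_one]; exact hz)
      rwa [map_one] at this
  -- the main case
  let O := v.valuationSubring
  haveI hdvr : IsDiscreteValuationRing O := dvr_of_nontrivial hnt
  obtain ⟨π, hπ⟩ := IsDiscreteValuationRing.exists_irreducible O
  haveI : IsPrincipalIdealRing (O[X] ⧸ Ideal.span {(Polynomial.C π : O[X])}) := pid_quot hπ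
  letI : Algebra O[X] K := algX v x
  letI : Algebra O[X] L := ((algebraMap K L).comp (algebraMap O[X] K)).toAlgebra
  haveI : IsScalarTower O[X] K L := IsScalarTower.of_algebraMap_eq' rfl
  haveI : IsFractionRing O[X] K := isFractionRing_algX v hx hK
  have hAL : ∀ f : O[X], algebraMap O[X] L f =
      algebraMap K L (Polynomial.aeval x (f.map (algebraMap O P))) := fun _ => rfl
  have hcoef : ∀ (f : O[X]) (n : ℕ), w₀ (algebraMap P L ((f.map (algebraMap O P)).coeff n)) ≤ 1 := by
    intro f n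
    rw [Polynomial.coeff_map, ← hva]
    exact (f.coeff n).2
  have hX : w₀ (algebraMap K L x) = 1 := by
    have h1 := hG Polynomial.X (fun n => by
      rw [Polynomial.coeff_X]
      split_ifs <;> simp) ⟨1, by rw [Polynomial.coeff_X_one, map_one, map_one]⟩
    rwa [Polynomial.aeval_X] at h1
  have hle₀ : ∀ f : O[X], w₀ (algebraMap O[X] L f) ≤ 1 := fun f => by
    rw [hAL]; exact aeval_le_one hX.le (hcoef f)
  have hle₁ : ∀ f : O[X], w₁ (algebraMap O[X] L f) ≤ 1 := fun f => by
    rw [hAL]; exact aeval_le_one hc fun n => by rw [h01]; exact hcoef f n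
  have hCπ : ∀ a : O, algebraMap O[X] L (Polynomial.C a) = algebraMap P L (a : P) := by
    intro a
    rw [hAL, Polynomial.map_C, Polynomial.aeval_C, ← IsScalarTower.algebraMap_apply]
    rfl
  have hunit : ∀ a : O, IsUnit a ↔ v (a : P) = 1 := by
    intro a
    constructor
    · rintro ⟨b, rfl⟩
      refine le_antisymm (b : O).2 ?_
      have h1 : v ((b : O) : P) * v ((((b⁻¹ : Oˣ) : O)) : P) = 1 := by
        rw [← map_mul]
        have h2 : ((b : O) : P) * (((b⁻¹ : Oˣ) : O) : P) = ((1 : O) : P) := by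
          rw [← Units.mul_inv b]; rfl
        rw [h2]
        exact map_one v
      rw [← h1]
      exact mul_le_of_le_one_right' ((b⁻¹ : Oˣ) : O).2
    · intro h
      have h0 : (a : P) ≠ 0 := by
        intro h0
        rw [h0, map_zero] at h
        exact zero_ne_one h
      refine ⟨⟨a, ⟨(a : P)⁻¹, ?_⟩, Subtype.ext (mul_inv_cancel₀ h0),
        Subtype.ext (inv_mul_cancel₀ h0)⟩, rfl⟩
      show v (a : P)⁻¹ ≤ 1
      rw [map_inv₀, h, inv_one]
  have hπ1 : v (π : P) < 1 :=
    lt_of_le_of_ne π.2 fun h => hπ.not_isUnit ((hunit π).2 h)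
  have hdvd : ∀ a : O, v (a : P) < 1 → π ∣ a := by
    intro a ha
    have h1 : a ∈ IsLocalRing.maximalIdeal O :=
      (IsLocalRing.mem_maximalIdeal a).2 fun h => ha.ne ((hunit a).1 h)
    rwa [hπ.maximalIdeal_eq, Ideal.mem_span_singleton] at h1
  have hw₀ : OverPrime w₀ (Polynomial.C π : O[X]) := by
    refine ⟨hle₀, fun f => ⟨fun h => ?_, ?_⟩⟩
    · by_contra hnd
      have h1 : ∃ n, w₀ (algebraMap P L ((f.map (algebraMap O P)).coeff n)) = 1 := by
        by_contra hcon
        push Not at hcon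
        apply hnd
        rw [Polynomial.C_dvd_iff_dvd_coeff]
        intro n
        refine hdvd _ (lt_of_le_of_ne (f.coeff n).2 fun h2 => hcon n ?_)
        rw [Polynomial.coeff_map, ← hva]
        exact h2
      rw [hAL] at h
      exact h.ne (hG _ (hcoef f) h1)
    · rintro ⟨f', rfl⟩
      rw [map_mul, map_mul, hCπ, ← hva]
      exact (mul_le_of_le_one_right' (hle₀ f')).trans_lt hπ1
  refine purity (A := O[X]) (K := K) (p := Polynomial.C π)
    (Polynomial.prime_C_iff.2 hπ.prime) hw₀ hn hle₁ ?_ ?_ hg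
  · rw [hCπ, h01]
  · intro q hq hqπ hq1
    obtain ⟨w', h1, h2, h3⟩ := exists_over_prime (L := L) v hx hK hπ hq hqπ
    refine ⟨w', ⟨h2, h3⟩, fun g' hg' => hU w' h1 ?_ ?_ g' hg'⟩
    · have h4 := h2 (Polynomial.X : O[X])
      rwa [Polynomial.map_X, Polynomial.aeval_X] at h4
    · intro p hp hlt
      -- lift `p`
      obtain ⟨f, rfl⟩ : ∃ f : O[X], f.map (algebraMap O P) = p := by
        rw [← Polynomial.mem_lifts, Polynomial.lifts_iff_coeff_lifts]
        intro n
        exact ⟨⟨p.coeff n, hp n⟩, rfl⟩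
      obtain ⟨f', rfl⟩ := (h3 f).1 hlt
      have h5 : w₁ (algebraMap O[X] L (q * f')) < 1 := by
        rw [map_mul, map_mul]
        exact (mul_le_of_le_one_right' (hle₁ f')).trans_lt hq1
      exact h5

end spec

end Pf72953.Pur
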